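import Pool.Agent.MP_3fa95c_lc.H25.B
import Mathlib

attribute [-instance] Submodule.module' IdemCommSemiring.toIdemSemiring Algebra.ofSubsemiring
  NumberField.to_charZero RCLike.charZero_rclike littleWedderburn IsOrderedRing.toIsStrictOrderedRing
  SubmoduleClass.module RingConeClass.toSubsemiringClass
  ContinuousMonoidHom.instCoeOutOfMonoidHomClassOfContinuousMapClass SetLike.GradeZero.instSemiring
  AddQuantale.instAddLeftMono CommMonoid.toMonoid IdemSemiring.toCanonicallyOrderedAdd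
  SetLike.GradeZero.instCommRing GradedMonoid.GradeZero.monoid instCharZeroOfIsSemireal
  instCoeTCOfCoe NormedSpace.toModule SetLike.GradeZero.instRing SubringClass.toRing
  Subfield.instMulDistribMulActionSubtypeMem RKHS.instFunLike LieAdmissibleAlgebra.toIsScalarTower
  AddQuantale.instAddRightMono LieAdmissibleAlgebra.toModule SubringClass.toCommRing
  Algebra.WeaklyEtale.flat RightPreLieAlgebra.toModule SubsemiringClass.toSemiring
  LeftPreLieAlgebra.toModule LieAlgebra.toModule IsometryClass.instCoeOutIsometryEquiv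
  instCoeTOfCoeDep covariant_swap_mul_of_covariant_mul Fintype.decidableForallFintype
  RightPreLieAlgebra.toIsScalarTower LeftPreLieAlgebra.toIsScalarTower Quantale.instMulRightMono
  ContinuousAddMonoidHom.instCoeOutOfAddMonoidHomClassOfContinuousMapClass
  HomeomorphClass.instCoeOutHomeomorph Algebra.Smooth.flat
  AlgHom.instNonUnitalAlgHomClassOfAlgHomClass TotallySeparatedSpace.t2Space
  MonTypeEquivalenceMon.monMonoid Group.IsPerfect.subsingleton_of_isMulCommutative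
  CompletePartialOrder.toPartialOrder

-- part MP_3fa95c_lc.H70.Sys
section

namespace Pool.Agent.MP_3fa95c_lc.H70

open H25E H25E.Sc Submodule Module Filter

/-- A filtered family of spaces of small germs adapted to a set `Ξ` of reals. -/
structure Sys (S : Sc) (γ κ Λ : ℝ) (C r s : ℕ) (Ξ : Set ℝ) where
  U : ℕ → ℕ → ℕ → Submodule S.K S.L
  V : ℕ → ℕ → Submodule S.K S.L
  F : ℕ → Submodule S.K S.L
  q : S.L
  ω : S.L
  P : ℕ
  hq : q ∈ S.Zh
  hq0 : q ≠ 0
  hqκ : S.Bd κ q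
  fgU : ∀ J D R, (U J D R).FG
  fgF : ∀ R, (F R).FG
  hU : ∀ J D R, U J D R ≤ S.MM (q ^ (J + D + 1))
  UV : ∀ J D R, U J D R ≤ V J R
  Vm : ∀ J R, V J R ≤ V (J + 1) (R + 1)
  VU : ∀ J R (A : ℕ), V J R ≤ U J A R ⊔ S.TT (-(γ * A))
  sc : ∀ ρ D, ∃ M : Submodule S.K S.L, M.FG ∧ finrank S.K M ≤ ρ ^ s ∧
    ∀ J R, U J (ρ * D) R ≤ M * U J D R
  lo : ∀ J D R, 1 ≤ D → F R ≤ U J D R
  up : ∀ J D, ∃ M : Submodule S.K S.L, M.FG ∧ finrank S.K M ≤ (J + 1) ^ r * D ^ s ∧
    ∀ R, U J D R ≤ M * F R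
  F0 : ∀ R, ∃ f ∈ F R, f ≠ 0
  FP : ∀ R, finrank S.K (F R) ≤ (R + 1) ^ P
  hω : ω ∈ S.MM (q ^ C)
  hω0 : ω ≠ 0
  ωV : ∀ J R, span S.K {ω} * V J R ≤ V J R
  hx : ∀ ξ ∈ Ξ, ∃ x, (∀ J R, span S.K {x} * V J R ≤ V (J + 1) (R + 1)) ∧
    S.Bd (-Λ) (ω * S.cst ξ - x)

variable {S : Sc}

theorem TT_mono {a b : ℝ} (h : a ≤ b) : S.TT a ≤ S.TT b := fun _ hx => Bd.mono hx h

/-- weaken the parameters -/
def Sys.weak {γ κ Λ γ' Λ' : ℝ} {C r s : ℕ} {Ξ : Set ℝ} (A : Sys S γ κ Λ C r s Ξ)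
    (h1 : γ' ≤ γ) (h2 : Λ' ≤ Λ) : Sys S γ' κ Λ' C r s Ξ :=
  { A with
    VU := fun J R n => (A.VU J R n).trans (sup_le_sup_left (TT_mono (by
      have := mul_le_mul_of_nonneg_right h1 (Nat.cast_nonneg n)
      linarith)) _)
    hx := fun ξ hξ => by
      obtain ⟨x, h3, h4⟩ := A.hx ξ hξ
      exact ⟨x, h3, h4.mono (by linarith)⟩ }

theorem mul4 (a b c d : Submodule S.K S.L) : a * b * (c * d) = a * c * (b * d) := by ring

theorem s_one (a : Submodule S.K S.L) : 1 * a = a := by ring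

theorem s_add (a : Submodule S.K S.L) (m n : ℕ) : a ^ (m + n) = a ^ m * a ^ n := by ring

theorem s_succ (a : Submodule S.K S.L) (m : ℕ) : a ^ (m + 1) = a * a ^ m := by ring

theorem s_mp (a b : Submodule S.K S.L) (m : ℕ) : (a * b) ^ m = a ^ m * b ^ m := by ring

theorem s_lc (a b c : Submodule S.K S.L) : a * (b * c) = b * (a * c) := by ring

theorem span_mul_singleton (x y : S.L) :
    span S.K {x * y} = span S.K {x} * span S.K {y} := by
  rw [span_mul_span, Set.singleton_mul_singleton]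

theorem span_pw (x : S.L) (n : ℕ) : span S.K {x ^ n} = span S.K {x} ^ n := by
  induction n with
  | zero => rw [_root_.pow_zero, ← one_eq_span]; ring
  | succ n ih => rw [s_succ, ← ih, ← span_mul_singleton, _root_.pow_succ']

/-- product of two systems -/
noncomputable def Sys.prod {γ κ κ' Λ : ℝ} {C r s C' r' s' : ℕ} {Ξ Ξ' : Set ℝ} (hγ : 0 ≤ γ)
    (A : Sys S γ κ Λ C r s Ξ) (B : Sys S γ κ' Λ C' r' s' Ξ') :
    Sys S γ (κ + κ') Λ (C + C') (r + r') (s + s') (Ξ ∪ Ξ') where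
  U J D R := A.U J D R * B.U J D R
  V J R := A.V J R * B.V J R
  F R := A.F R * B.F R
  q := A.q * B.q
  ω := A.ω * B.ω
  P := A.P + B.P
  hq := mul_mem A.hq B.hq
  hq0 := mul_ne_zero A.hq0 B.hq0
  hqκ := A.hqκ.mul B.hqκ
  fgU J D R := (A.fgU J D R).mul (B.fgU J D R)
  fgF R := (A.fgF R).mul (B.fgF R)
  hU J D R := by
    rw [mul_pow]
    exact (mul_le_mul' (A.hU J D R) (B.hU J D R)).trans MM_mul
  UV J D R := mul_le_mul' (A.UV J D R) (B.UV J D R)
  Vm J R := mul_le_mul' (A.Vm J R) (B.Vm J R)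
  VU J R n := (mul_le_mul' (A.VU J R n) (B.VU J R n)).trans
    (sup_mul_sup (by simp only [Left.neg_nonpos_iff]; positivity) ((A.hU _ _ _).trans MM_le_TT)
      ((B.hU _ _ _).trans MM_le_TT))
  sc ρ D := by
    obtain ⟨M, h1, h2, h3⟩ := A.sc ρ D
    obtain ⟨M', h1', h2', h3'⟩ := B.sc ρ D
    refine ⟨M * M', h1.mul h1', ?_, fun J R => ?_⟩
    · rw [pow_add]
      exact (finrank_mul_le h1 h1').trans (Nat.mul_le_mul h2 h2')
    · rw [mul4]
      exact mul_le_mul' (h3 J R) (h3' J R)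
  lo J D R h := mul_le_mul' (A.lo J D R h) (B.lo J D R h)
  up J D := by
    obtain ⟨M, h1, h2, h3⟩ := A.up J D
    obtain ⟨M', h1', h2', h3'⟩ := B.up J D
    refine ⟨M * M', h1.mul h1', ?_, fun R => ?_⟩
    · refine (finrank_mul_le h1 h1').trans ((Nat.mul_le_mul h2 h2').trans (le_of_eq ?_))
      ring
    · rw [mul4]
      exact mul_le_mul' (h3 R) (h3' R)
  F0 R := by
    obtain ⟨f, h1, h2⟩ := A.F0 R
    obtain ⟨f', h1', h2'⟩ := B.F0 R
    exact ⟨f * f', mul_mem_mul h1 h1', mul_ne_zero h2 h2'⟩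
  FP R := by
    rw [pow_add]
    exact (finrank_mul_le (A.fgF R) (B.fgF R)).trans (Nat.mul_le_mul (A.FP R) (B.FP R))
  hω := by
    have h := MM_mono (q := A.q ^ C' * B.q ^ C) (mul_mem (pow_mem A.hq _) (pow_mem B.hq _))
      (MM_mul (mul_mem_mul A.hω B.hω))
    rwa [show A.q ^ C * B.q ^ C' * (A.q ^ C' * B.q ^ C) = (A.q * B.q) ^ (C + C') by ring] at h
  hω0 := mul_ne_zero A.hω0 B.hω0
  ωV J R := by
    rw [span_mul_singleton, mul4]
    exact mul_le_mul' (A.ωV J R) (B.ωV J R)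
  hx ξ hξ := by
    rcases hξ with h | h
    · obtain ⟨x, h1, h2⟩ := A.hx ξ h
      refine ⟨x * B.ω, fun J R => ?_, ?_⟩
      · rw [span_mul_singleton, mul4]
        exact mul_le_mul' (h1 J R) ((B.ωV J R).trans (B.Vm J R))
      · rw [show A.ω * B.ω * S.cst ξ - x * B.ω = B.ω * (A.ω * S.cst ξ - x) by ring]
        exact Bd.mul0 B.hω.1 h2
    · obtain ⟨x, h1, h2⟩ := B.hx ξ h
      refine ⟨A.ω * x, fun J R => ?_, ?_⟩
      · rw [span_mul_singleton, mul4]
        exact mul_le_mul' ((A.ωV J R).trans (A.Vm J R)) (h1 J R)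
      · rw [show A.ω * B.ω * S.cst ξ - A.ω * x = A.ω * (B.ω * S.cst ξ - x) by ring]
        exact Bd.mul0 A.hω.1 h2

theorem fg_one : (1 : Submodule S.K S.L).FG := by
  rw [one_eq_span]
  exact fg_span_singleton 1

theorem finrank_single (x : S.L) : finrank S.K (span S.K {x}) ≤ 1 := by
  have := finrank_span_le_card (R := S.K) ({x} : Set S.L)
  simpa only [ge_iff_le, Set.toFinset_singleton, Finset.card_singleton] using this

theorem finrank_one_le : finrank S.K (1 : Submodule S.K S.L) ≤ 1 := by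
  rw [one_eq_span]
  exact finrank_single 1

/-- the empty system -/
noncomputable def Sys.empty (S : Sc) (Λ : ℝ) : Sys S 1 1 Λ 0 0 0 ∅ where
  U _ _ _ := 1
  V _ _ := 1
  F _ := 1
  q := 1
  ω := 1
  P := 0
  hq := one_mem _
  hq0 := one_ne_zero
  hqκ := Bd_one.mono (by norm_num)
  fgU _ _ _ := fg_one
  fgF _ := fg_one
  hU _ _ _ := one_le.2 (one_mem_MM (by simp))
  UV _ _ _ := le_rfl
  Vm _ _ := le_rfl
  VU _ _ _ := le_sup_left
  sc _ _ := ⟨1, fg_one, by simpa only [pow_zero] using finrank_one_le, fun _ _ => (s_one _).ge⟩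
  lo _ _ _ _ := le_rfl
  up _ _ := ⟨1, fg_one, by simpa only [pow_zero, mul_one] using finrank_one_le, fun _ => (s_one _).ge⟩
  F0 _ := ⟨1, one_le.1 le_rfl, one_ne_zero⟩
  FP _ := by simpa only [pow_zero] using finrank_one_le
  hω := one_mem_MM (by simp)
  hω0 := one_ne_zero
  ωV _ _ := by rw [← one_eq_span]; exact (s_one _).le
  hx _ h := absurd h (Set.notMem_empty _)

/-- span of `1` and the constants from `Ξ` -/
noncomputable def Xi (S : Sc) (Ξ : Set ℝ) : Submodule S.K S.L := span S.K (insert 1 (S.cst '' Ξ))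

theorem one_mem_Xi (Ξ : Set ℝ) : 1 ∈ Xi S Ξ := subset_span (Set.mem_insert _ _)

theorem Xi_pow_mono (Ξ : Set ℝ) {m n : ℕ} (h : m ≤ n) : Xi S Ξ ^ m ≤ Xi S Ξ ^ n := by
  obtain ⟨k, rfl⟩ := Nat.exists_eq_add_of_le h
  intro y hy
  rw [s_add]
  simpa only [one_pow, mul_one] using mul_mem_mul hy (pow_mem_pow _ (one_mem_Xi (S := S) Ξ) k)

theorem cst_rat (x : ℚ) : S.cst x ∈ S.K := by
  have : S.cst x = (x : S.L) := by simp
  rw [this]
  exact SubfieldClass.ratCast_mem _ x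

theorem adjoin_Xi (Ξ : Set ℝ) {y : ℝ} (hy : y ∈ Algebra.adjoin ℚ Ξ) :
    ∃ n, S.cst y ∈ Xi S Ξ ^ n := by
  induction hy using Algebra.adjoin_induction with
  | mem x hx =>
    have : S.cst x ∈ Xi S Ξ := subset_span (Set.mem_insert_of_mem _ ⟨x, hx, rfl⟩)
    exact ⟨1, by simpa only [pow_one] using this⟩
  | algebraMap x =>
    refine ⟨1, ?_⟩
    have := smul_mem _ (⟨_, cst_rat x⟩ : S.K) (one_mem_Xi (S := S) Ξ)
    simpa [Subfield.smul_def] using this
  | add x y _ _ hx hy =>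
    obtain ⟨m, hm⟩ := hx
    obtain ⟨n, hn⟩ := hy
    exact ⟨m + n, by
      rw [map_add]
      exact add_mem (Xi_pow_mono Ξ (by omega) hm) (Xi_pow_mono Ξ (by omega) hn)⟩
  | mul x y _ _ hx hy =>
    obtain ⟨m, hm⟩ := hx
    obtain ⟨n, hn⟩ := hy
    exact ⟨m + n, by rw [map_mul, pow_add]; exact mul_mem_mul hm hn⟩

theorem rel_pow (X : Submodule S.K S.L) {θ : S.L} {a : ℕ → S.L} {d δ : ℕ} (hd : 1 ≤ d)
    (ha : ∀ u, a u ∈ X ^ δ) (hrel : ∑ u ∈ Finset.range (d + 1), a u * θ ^ u = 0) (n : ℕ) :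
    ∀ i ≤ n, a d ^ n * θ ^ i ∈ X ^ (δ * n) * im S.K (θ ^ ·) d := by
  have h1 : span S.K {a d * θ} * im S.K (θ ^ ·) d ≤ X ^ δ * im S.K (θ ^ ·) d := by
    rw [im, span_mul_span, span_le]
    rintro _ ⟨_, rfl, _, ⟨u, hu, rfl⟩, rfl⟩
    have hu' : u < d := hu
    simp only [SetLike.mem_coe]
    by_cases h : u + 1 < d
    · rw [mul_assoc, ← pow_succ']
      exact mul_mem_mul (ha d) (mem_im (θ ^ ·) h)
    · rw [Finset.sum_range_succ] at hrel
      have e : a d * θ * θ ^ u = -∑ v ∈ Finset.range d, a v * θ ^ v := by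
        rw [mul_assoc, ← pow_succ', show u + 1 = d by omega]
        linear_combination hrel
      rw [e]
      exact neg_mem (sum_mem fun v hv =>
        mul_mem_mul (ha v) (mem_im (θ ^ ·) (Finset.mem_range.1 hv)))
  induction n with
  | zero =>
    intro i hi
    obtain rfl : i = 0 := by omega
    simpa using mem_im (K := S.K) (θ ^ ·) (t := 0) hd
  | succ n ih =>
    intro i hi
    rw [mul_add, mul_one, pow_add X, mul_comm (X ^ (δ * n)), mul_assoc]
    rcases Nat.lt_succ_iff_lt_or_eq.1 (Nat.lt_succ_of_le hi) with h | rfl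
    · rw [pow_succ', mul_assoc]
      exact mul_mem_mul (ha d) (ih i (by omega))
    · have h2 := mul_mem_mul (mem_span_singleton_self (R := S.K) (a d * θ)) (ih n le_rfl)
      rw [show a d * θ * (a d ^ n * θ ^ n) = a d ^ (n + 1) * θ ^ (n + 1) by ring,
        s_lc] at h2
      rw [s_lc]
      exact mul_le_mul_right h1 _ h2

namespace Sys
variable {γ κ Λ : ℝ} {C r s : ℕ} {Ξ : Set ℝ} (A : Sys S γ κ Λ C r s Ξ)

theorem V_le (J R : ℕ) : A.V J R ≤ S.TT 0 :=
  (A.VU J R 0).trans (sup_le ((A.hU _ _ _).trans MM_le_TT) (by simp))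

theorem shift (n : ℕ) : ∀ J R, (span S.K {A.ω} * Xi S Ξ) ^ n * A.V J R ≤
    A.V (J + n) (R + n) ⊔ S.TT (-Λ) := by
  have h0 : span S.K {A.ω} * Xi S Ξ ≤ S.TT 0 := by
    rw [Xi, span_mul_span, span_le]
    rintro _ ⟨_, rfl, _, h, rfl⟩
    rcases h with rfl | ⟨ξ, -, rfl⟩
    · exact Bd.mul0 A.hω.1 Bd_one
    · exact Bd.mul0 A.hω.1 (Bd_cst ξ)
  have h1 : ∀ J R, span S.K {A.ω} * Xi S Ξ * A.V J R ≤ A.V (J + 1) (R + 1) ⊔ S.TT (-Λ) := by
    intro J R
    rw [Xi, span_mul_span, ← span_eq (A.V J R), span_mul_span, span_le]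
    rintro _ ⟨_, ⟨_, rfl, _, h, rfl⟩, v, hv, rfl⟩
    simp only [SetLike.mem_coe] at hv ⊢
    rcases h with rfl | ⟨ξ, hξ, rfl⟩
    · rw [mul_one]
      exact mem_sup_left (A.Vm _ _ (A.ωV _ _ (mul_mem_mul (mem_span_singleton_self _) hv)))
    · obtain ⟨x, h2, h3⟩ := A.hx ξ hξ
      rw [show A.ω * S.cst ξ * v = x * v + v * (A.ω * S.cst ξ - x) by ring]
      exact add_mem_sup (h2 _ _ (mul_mem_mul (mem_span_singleton_self _) hv))
        (Bd.mul0 (A.V_le J R hv) h3)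
  induction n with
  | zero => intro J R; simp only [npow_zero, one_mul, add_zero, le_sup_left]
  | succ n ih =>
    intro J R
    rw [s_succ, mul_assoc]
    refine (mul_le_mul_right (ih J R) _).trans ?_
    rw [Submodule.mul_sup]
    exact sup_le (h1 _ _) (le_sup_of_le_right ((mul_le_mul_left h0 _).trans TT_mul))

theorem F_pos (R : ℕ) : 1 ≤ finrank S.K (A.F R) := by
  have := Module.Finite.iff_fg.2 (A.fgF R)
  rw [Nat.one_le_iff_ne_zero, Ne, Submodule.finrank_eq_zero]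
  intro h
  obtain ⟨f, h1, h2⟩ := A.F0 R
  rw [h] at h1
  exact h2 h1

theorem step (hκ : 0 < κ) {a : ℕ → ℝ} {d δ ρ D : ℕ} (hd : 1 ≤ d) (hρ1 : 1 ≤ ρ) (had : a d ≠ 0)
    (ha : ∀ u, S.cst (a u) ∈ Xi S Ξ ^ δ)
    (hrel : ∑ u ∈ Finset.range (d + 1), a u * Real.exp (-1) ^ u = 0)
    (hρ : 2 * (κ * (C + 3)) ≤ γ * ρ) (hΛ : 2 * (κ * (C + 3) * D) ≤ Λ) (hD : 1 ≤ D) (J R : ℕ)
    (hJ : J + δ * (16 * d * ρ ^ s) ≤ D) :
    2 * finrank S.K (A.U J D R) ≤
      finrank S.K (A.U (J + δ * (16 * d * ρ ^ s)) D (R + δ * (16 * d * ρ ^ s))) := by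
  set Δ := 16 * d * ρ ^ s with hΔ
  set n := δ * Δ with hn
  set θ := S.cst (Real.exp (-1)) with hθ
  set z := (S.cst (a d))⁻¹ ^ Δ with hz
  have hΔ1 : 1 ≤ Δ := Nat.mul_pos (by omega) (by positivity)
  have hz0 : S.Bd 0 z := by
    rw [hz, ← map_inv₀, ← map_pow]
    exact Bd_cst _
  have hrel' : ∑ u ∈ Finset.range (d + 1), S.cst (a u) * θ ^ u = 0 := by
    have := congrArg S.cst hrel
    simpa only [hθ, map_sum, map_mul, map_pow, map_zero] using this
  have hΘ : span S.K {z} * im S.K (θ ^ ·) d ≤ S.TT 0 := by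
    rw [im, span_mul_span, span_le]
    rintro _ ⟨_, rfl, _, ⟨u, -, rfl⟩, rfl⟩
    exact Bd.mul0 hz0 ((Bd_cst _).pow0 u)
  have g1 := (fg_span_singleton (R := S.K) (A.ω ^ n)).mul (A.fgU J D R)
  have g0 := (fg_span_singleton (R := S.K) z).mul (im_fg (K := S.K) (θ ^ ·) d)
  have g2 := g0.mul (A.fgU (J + n) (ρ * D) (R + n))
  have f1 := Module.Finite.iff_fg.2 g1
  have f2 := Module.Finite.iff_fg.2 g2
  have hY1 := (A.hU (J + n) (ρ * D) (R + n)).trans MM_le_TT
  have hlow : finrank S.K (A.U J D R) ≤ finrank S.K ↥(span S.K {A.ω ^ n} * A.U J D R) := by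
    have h1 : A.U J D R ≤ span S.K {(A.ω ^ n)⁻¹} * (span S.K {A.ω ^ n} * A.U J D R) := by
      rw [← mul_assoc, ← span_mul_singleton, inv_mul_cancel₀ (pow_ne_zero _ A.hω0),
        ← one_eq_span, s_one]
    refine (finrank_le_of_le ((fg_span_singleton _).mul g1) h1).trans
      ((finrank_mul_le (fg_span_singleton _) g1).trans ?_)
    exact (Nat.mul_le_mul_right _ (finrank_single _)).trans (by simp)
  have hc : 0 < κ * (C + 3) * D := by positivity
  have key := core2 S (c := κ * (C + 3) * D) hc (q := A.q ^ ((C + 3) * D))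
    (pow_ne_zero _ A.hq0) (by
      have := A.hqκ.pow ((C + 3) * D)
      push_cast at this
      exact this.mono (le_of_eq (by ring)))
    (span S.K {A.ω ^ n} * A.U J D R)
    (span S.K {z} * im S.K (θ ^ ·) d * A.U (J + n) (ρ * D) (R + n)) (by
      have h1 : span S.K {A.ω ^ n} ≤ S.MM ((A.q ^ C) ^ n) := by
        rw [span_pw]
        exact MM_pow ((span_singleton_le_iff_mem _ _).2 A.hω) n
      have h2 : C * n ≤ C * D := Nat.mul_le_mul_left _ (by omega)
      obtain ⟨k, hk⟩ : ∃ k, (C + 3) * D = C * n + (J + D + 1) + k :=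
        ⟨(C + 3) * D - (C * n + (J + D + 1)), by rw [add_mul]; omega⟩
      rw [hk, pow_add _ _ k, pow_add, pow_mul A.q]
      exact ((mul_le_mul' h1 (A.hU J D R)).trans MM_mul).trans (MM_mono (pow_mem A.hq k)))
    ((mul_le_mul' hΘ hY1).trans TT_mul) Δ hΔ1
    (((A.F_pos R).trans (finrank_le_of_le (A.fgU J D R) (A.lo J D R hD))).trans hlow)
    (fun i hi u hu => by
      have hT : -(2 * (κ * (C + 3) * D)) ≤ (0 : ℝ) := by linarith only [hc]
      have h1 := rel_pow (Xi S Ξ) hd ha hrel' Δ i hi.le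
      have h2 : (span S.K {A.ω} * Xi S Ξ) ^ n * A.U J D R ≤
          A.U (J + n) (ρ * D) (R + n) ⊔ S.TT (-(2 * (κ * (C + 3) * D))) := by
        refine (mul_le_mul_right (A.UV J D R) _).trans ((A.shift n J R).trans
          (sup_le ((A.VU _ _ (ρ * D)).trans (sup_le_sup_left (TT_mono ?_) _))
            (le_sup_of_le_right (TT_mono (by linarith only [hΛ])))))
        push_cast
        have := mul_le_mul_of_nonneg_right hρ (Nat.cast_nonneg (α := ℝ) D)
        linarith only [this]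
      have h3 := mul_mem_mul (mul_mem_mul (mem_span_singleton_self (R := S.K) z) h1) hu
      have e1 : span S.K {z} * (Xi S Ξ ^ (δ * Δ) * im S.K (θ ^ ·) d) *
          (span S.K {A.ω ^ n} * A.U J D R) = span S.K {z} * im S.K (θ ^ ·) d *
            ((span S.K {A.ω} * Xi S Ξ) ^ n * A.U J D R) := by
        rw [s_mp, span_pw A.ω, ← hn]
        ring
      have e2 : z * (S.cst (a d) ^ Δ * θ ^ i) * u = S.cst (Real.exp (-(i : ℝ))) * u := by
        have h4 : S.cst (a d) ≠ 0 := (map_ne_zero S.cst).2 had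
        rw [hz, hθ, ← map_pow, ← map_pow S.cst (Real.exp (-1)), ← Real.exp_nat_mul, inv_pow,
          map_pow, inv_mul_cancel_left₀ (pow_ne_zero _ h4)]
        simp
      rw [e1, e2] at h3
      exact sup_mul_sup hT hΘ hY1 (mul_le_mul' le_sup_left h2 h3))
  obtain ⟨M, hM1, hM2, hM3⟩ := A.sc ρ D
  have h5 : finrank S.K ↥(span S.K {z} * im S.K (θ ^ ·) d * A.U (J + n) (ρ * D) (R + n)) ≤
      1 * d * (ρ ^ s * finrank S.K (A.U (J + n) D (R + n))) := by
    refine (finrank_mul_le g0 (A.fgU _ _ _)).trans (Nat.mul_le_mul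
      ((finrank_mul_le (fg_span_singleton _) (im_fg _ _)).trans
        (Nat.mul_le_mul (finrank_single _) (finrank_im _ _))) ?_)
    exact (finrank_le_of_le (hM1.mul (A.fgU _ _ _)) (hM3 _ _)).trans
      ((finrank_mul_le hM1 (A.fgU _ _ _)).trans (Nat.mul_le_mul_right _ hM2))
  have h6 : 8 * d * ρ ^ s * (2 * finrank S.K (A.U J D R)) ≤
      8 * d * ρ ^ s * finrank S.K (A.U (J + n) D (R + n)) := by
    calc 8 * d * ρ ^ s * (2 * finrank S.K (A.U J D R)) = Δ * finrank S.K (A.U J D R) := by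
          rw [hΔ]; ring
      _ ≤ _ := Nat.mul_le_mul_left _ hlow
      _ ≤ _ := key.le
      _ ≤ 8 * (1 * d * (ρ ^ s * finrank S.K (A.U (J + n) D (R + n)))) :=
          Nat.mul_le_mul_left _ h5
      _ = _ := by ring
  exact Nat.le_of_mul_le_mul_left h6 (by positivity)

theorem contra {n k : ℕ} (hn : 1 ≤ n) (hk : 2 * (k * n + 1) ^ (r + s) ≤ 2 ^ k)
    (step : ∀ J R, J + n ≤ k * n → 2 * finrank S.K (A.U J (k * n) R) ≤
      finrank S.K (A.U (J + n) (k * n) (R + n))) : False := by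
  have hk1 : 1 ≤ k := by
    rcases k with _ | k
    · simp at hk
    · omega
  have hD : 1 ≤ k * n := Nat.mul_pos hk1 hn
  have h2 : ∀ R, ∀ i ≤ k, 2 ^ i * finrank S.K (A.F R) ≤
      finrank S.K (A.U (i * n) (k * n) (R + i * n)) := by
    intro R i
    induction i with
    | zero =>
      intro _
      rw [Nat.zero_mul, Nat.add_zero, _root_.pow_zero, Nat.one_mul]
      exact finrank_le_of_le (A.fgU _ _ _) (A.lo 0 _ R hD)
    | succ i ih =>
      intro hi
      have h3 := step (i * n) (R + i * n) (by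
        rw [← add_one_mul]
        exact Nat.mul_le_mul_right _ hi)
      have h4 := ih (by omega)
      rw [pow_succ, add_one_mul, ← add_assoc]
      linarith only [h3, h4]
  obtain ⟨M, hM1, hM2, hM3⟩ := A.up (k * n) (k * n)
  have h4 : ∀ R, 2 * finrank S.K (A.F R) ≤ finrank S.K (A.F (R + k * n)) := by
    intro R
    have h5 := (h2 R k le_rfl).trans ((finrank_le_of_le (hM1.mul (A.fgF _)) (hM3 _)).trans
      ((finrank_mul_le hM1 (A.fgF _)).trans (Nat.mul_le_mul_right _ hM2)))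
    have h6 : (k * n + 1) ^ r * (k * n) ^ s ≤ (k * n + 1) ^ (r + s) := by
      rw [pow_add]
      exact Nat.mul_le_mul_left _ (Nat.pow_le_pow_left (Nat.le_succ _) _)
    have h7 : (k * n + 1) ^ (r + s) * (2 * finrank S.K (A.F R)) ≤
        (k * n + 1) ^ (r + s) * finrank S.K (A.F (R + k * n)) := by
      calc _ = 2 * (k * n + 1) ^ (r + s) * finrank S.K (A.F R) := by ring
        _ ≤ _ := Nat.mul_le_mul_right _ hk
        _ ≤ _ := h5
        _ ≤ _ := Nat.mul_le_mul_right _ h6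
    exact Nat.le_of_mul_le_mul_left h7 (by positivity)
  have h5 : ∀ m, 2 ^ m ≤ finrank S.K (A.F (m * (k * n))) := by
    intro m
    induction m with
    | zero => rw [Nat.zero_mul]; exact A.F_pos 0
    | succ m ih => rw [pow_succ, add_one_mul]; linarith only [h4 (m * (k * n)), ih]
  have h6 := (tendsto_pow_const_div_const_pow_of_one_lt A.P (r := 2) one_lt_two).eventually
    (gt_mem_nhds (show (0 : ℝ) < 1 / ((k * n : ℕ) + 1) ^ A.P by positivity))
  obtain ⟨m, hm1, hm2⟩ := (h6.and (eventually_ge_atTop 1)).exists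
  rw [div_lt_div_iff₀ (by positivity) (by positivity), one_mul, ← mul_pow] at hm1
  have h7 : 2 ^ m ≤ (m * (k * n + 1)) ^ A.P :=
    (h5 m).trans ((A.FP _).trans (Nat.pow_le_pow_left (by linarith only [hm2]) _))
  have h8 : (2 : ℝ) ^ m ≤ (m * ((k * n : ℕ) + 1)) ^ A.P := by exact_mod_cast h7
  linarith only [hm1, h8]

end Sys

/-- Sets of reals with adapted systems of every precision `Λ` and rank `o(Λ / log Λ)`. -/
def Nice (S : Sc) (Ξ : Set ℝ) : Prop :=
  ∃ (γ κ : ℝ) (C s : ℕ), 0 < γ ∧ 0 < κ ∧ ∀ A : ℕ, ∀ᶠ Λ : ℕ in atTop, ∃ r : ℕ,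
    A * (r + 1) * (Nat.log 2 Λ + 1) ≤ Λ ∧ Nonempty (Sys S γ κ (γ * Λ) C r s Ξ)

theorem Nice.union {Ξ Ξ' : Set ℝ} (h : Nice S Ξ) (h' : Nice S Ξ') : Nice S (Ξ ∪ Ξ') := by
  obtain ⟨γ, κ, C, s, hγ, hκ, h⟩ := h
  obtain ⟨γ', κ', C', s', hγ', hκ', h'⟩ := h'
  refine ⟨min γ γ', κ + κ', C + C', s + s', lt_min hγ hγ', by positivity, fun A => ?_⟩
  filter_upwards [h (2 * A), h' (2 * A)] with Λ ⟨r, h1, ⟨X⟩⟩ ⟨r', h1', ⟨X'⟩⟩
  refine ⟨r + r', by nlinarith, ⟨Sys.prod (lt_min hγ hγ').le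
    (X.weak (min_le_left _ _) (by gcongr; exact min_le_left _ _))
    (X'.weak (min_le_right _ _) (by gcongr; exact min_le_right _ _))⟩⟩

theorem Nice.transc {Ξ : Set ℝ} (h : Nice S Ξ) :
    Transcendental (Algebra.adjoin ℚ Ξ) (Real.exp (-1)) := by
  rintro ⟨p, hp0, hp⟩
  obtain ⟨γ, κ, C, s, hγ, hκ, h⟩ := h
  set d := p.natDegree with hd
  let a : ℕ → ℝ := fun u => p.coeff u
  have hrel : ∑ u ∈ Finset.range (d + 1), a u * Real.exp (-1) ^ u = 0 := by
    rw [Polynomial.aeval_eq_sum_range] at hp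
    simpa only [a, Algebra.smul_def, Subalgebra.algebraMap_apply] using hp
  have had : a d ≠ 0 := fun e => hp0 (Polynomial.leadingCoeff_eq_zero.1 (Subtype.ext e))
  have hd1 : 1 ≤ d := by
    rcases h0 : d with _ | d'
    · rw [h0] at hrel had
      simp at hrel
      exact absurd hrel had
    · omega
  obtain ⟨δ, hδ1, hδ⟩ : ∃ δ, 1 ≤ δ ∧ ∀ u, S.cst (a u) ∈ Xi S Ξ ^ δ := by
    choose f hf using fun u => adjoin_Xi (S := S) Ξ (p.coeff u).2
    refine ⟨(Finset.range (d + 1)).sup f + 1, by omega, fun u => ?_⟩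
    by_cases hu : u < d + 1
    · exact Xi_pow_mono Ξ ((Finset.le_sup (f := f) (Finset.mem_range.2 hu)).trans
        (Nat.le_succ _)) (hf u)
    · have : a u = 0 := by
        simp only [a]
        rw [Polynomial.coeff_eq_zero_of_natDegree_lt (by omega)]
        rfl
      rw [this, map_zero]
      exact zero_mem _
  obtain ⟨ρ, hρ⟩ := exists_nat_gt (2 * (κ * (C + 3)) / γ)
  have hρ1 : 1 ≤ ρ := by
    have : (0 : ℝ) < ρ := lt_of_le_of_lt (by positivity) hρ
    exact_mod_cast this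
  rw [div_lt_iff₀ hγ, mul_comm (ρ : ℝ)] at hρ
  set n := δ * (16 * d * ρ ^ s) with hn
  have hn1 : 1 ≤ n := Nat.mul_pos hδ1 (Nat.mul_pos (by omega) (by positivity))
  obtain ⟨Λ, ⟨r, hr, ⟨X⟩⟩, hΛ⟩ := ((h (2 * (s + 1) * n * ρ)).and (eventually_ge_atTop 1)).exists
  set k := (r + s + 1) * (Nat.log 2 Λ + 1) with hk
  have h1 : 2 * (k * n * ρ) ≤ Λ := by
    refine le_trans ?_ hr
    calc 2 * (k * n * ρ) = (r + s + 1) * (2 * n * ρ * (Nat.log 2 Λ + 1)) := by rw [hk]; ring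
      _ ≤ ((s + 1) * (r + 1)) * (2 * n * ρ * (Nat.log 2 Λ + 1)) :=
          Nat.mul_le_mul_right _ (by nlinarith only [])
      _ = _ := by ring
  have hkn : 1 ≤ k * n := Nat.mul_pos (Nat.mul_pos (by omega) (by omega)) hn1
  have h2 : k * n + 1 ≤ 2 ^ (Nat.log 2 Λ + 1) := by
    have := Nat.lt_pow_succ_log_self (b := 2) (by norm_num) Λ
    have : k * n ≤ k * n * ρ := Nat.le_mul_of_pos_right _ hρ1
    omega
  refine X.contra (k := k) hn1 ?_ fun J R hJ => X.step hκ hd1 hρ1 had hδ hrel hρ.le ?_ hkn J R hJ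
  · calc 2 * (k * n + 1) ^ (r + s) ≤ 2 ^ (Nat.log 2 Λ + 1) * (2 ^ (Nat.log 2 Λ + 1)) ^ (r + s) :=
          Nat.mul_le_mul (by
            rw [pow_succ]
            exact Nat.le_mul_of_pos_left _ (by positivity)) (Nat.pow_le_pow_left h2 _)
      _ = _ := by rw [← pow_succ', ← pow_mul, hk, mul_comm]
  · have h3 : ((k * n * ρ : ℕ) : ℝ) ≤ Λ := by exact_mod_cast (by omega : k * n * ρ ≤ Λ)
    rw [Nat.cast_mul] at h3
    have h4 := mul_le_mul_of_nonneg_right hρ.le (Nat.cast_nonneg (α := ℝ) (k * n))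
    nlinarith only [hγ, h3, h4]

end Pool.Agent.MP_3fa95c_lc.H70

end

-- part MP_3fa95c_lc.H70.Blocky
section

namespace Pool.Agent.MP_3fa95c_lc.H70

open Filter

def piece (a : ℕ → ℤ) (x y : ℕ) : List ℤ := (List.range (y - x)).map fun t => a (x + t)

/-- At every scale `l`, the first `Λ l` terms are a concatenation of boundedly many pieces of
length at most `l`, of which only `o(Λ / log Λ)` are distinct. -/
def Blocky (a : ℕ → ℤ) : Prop :=
  ∃ g : ℕ, ∀ A : ℕ, ∀ᶠ Λ : ℕ in atTop, ∃ r P : ℕ, A * (r + 1) * (Nat.log 2 Λ + 1) ≤ Λ ∧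
    ∀ᶠ N : ℕ in atTop, ∃ l : ℕ, N ≤ g * l ∧ l ≤ N ∧ ∃ s : ℕ → ℕ, s 0 = 0 ∧
      (∀ i, s i ≤ s (i + 1)) ∧ (∀ i, s (i + 1) ≤ s i + l) ∧ Λ * l ≤ s P ∧
      ((Finset.range P).image fun i => piece a (s i) (s (i + 1))).card ≤ r

theorem small_const (A r : ℕ) :
    ∀ᶠ Λ : ℕ in atTop, A * (r + 1) * (Nat.log 2 Λ + 1) ≤ Λ := by
  have h := tendsto_pow_const_div_const_pow_of_one_lt 1 (r := (2 : ℝ)) (by norm_num)
  have h2 : ∀ᶠ n : ℕ in atTop, (n : ℝ) ^ 1 / 2 ^ n < 1 / (2 * (A * (r + 1)) + 1) :=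
    h.eventually (gt_mem_nhds (by positivity))
  obtain ⟨n0, hn0⟩ := eventually_atTop.mp h2
  filter_upwards [eventually_ge_atTop (2 ^ (n0 + 1))] with Λ hΛ
  have hpos : Λ ≠ 0 := by
    have : 0 < 2 ^ (n0 + 1) := by positivity
    omega
  have h3 : n0 + 1 ≤ Nat.log 2 Λ := (Nat.le_log_iff_pow_le (by norm_num) hpos).mpr hΛ
  have h4 := hn0 (Nat.log 2 Λ) (by omega)
  rw [div_lt_div_iff₀ (by positivity) (by positivity), one_mul, pow_one] at h4
  have h5 : Nat.log 2 Λ * (2 * (A * (r + 1)) + 1) < 2 ^ Nat.log 2 Λ := by exact_mod_cast h4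
  have h6 := Nat.pow_log_le_self 2 hpos
  nlinarith only [h3, h5, h6]

end Pool.Agent.MP_3fa95c_lc.H70

end

-- part MP_3fa95c_lc.H70.Glue
section

namespace Pool.Agent.MP_3fa95c_lc.H70

open H25E H25E.Sc Module Filter

variable {S : Sc}

theorem sys_one {γ κ Λ : ℝ} (hγ : 0 ≤ γ) (r : ℕ) {I : Type} [Fintype I] [DecidableEq I]
    (β : Fin r → S.L) (lab : I → Fin r) (w : I → S.L) (φ : (I → ℕ) → S.L) {q W : S.L}
    (hq : q ∈ S.Zh) (hqW : q * W = 1) (hqκ : S.Bd κ q) (hW : S.Bd (-γ) W)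
    (hβ : ∀ a, β a ∈ S.MM q) (hφ : ∀ m, φ m ∈ S.MM q) (hφ0 : φ 0 ≠ 0)
    (hw : ∀ i m, ∃ c : ℕ, w i * φ m = W ^ c * φ (m + Pi.single i 1)) {ξ : ℝ}
    (hx : S.Bd (-Λ) (S.cst ξ - ∑ i, β (lab i) * w i)) :
    Nonempty (Sys S γ κ Λ 0 r 1 {ξ}) := by
  set x := ∑ i, β (lab i) * w i with hxd
  have hW0 : S.Bd 0 W := hW.mono (by linarith)
  have hB : bl S.K β ≤ S.MM q := by
    rw [bl, Submodule.span_le]
    rintro _ (rfl | ⟨a, rfl⟩)
    · exact one_mem_MM hq
    · exact hβ a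
  have hF : ∀ R, bx S.K φ R ≤ S.MM q := fun R => by
    rw [bx, Submodule.span_le]; rintro _ ⟨m, -, rfl⟩; exact hφ m
  have hWD : ∀ D, im S.K (W ^ ·) D ≤ S.MM (q ^ D) := fun D => by
    rw [im, Submodule.span_le]
    rintro _ ⟨t, ht, rfl⟩
    refine ⟨hW0.pow0 t, 1, one_mem _, one_ne_zero, ?_⟩
    have ht' : t < D := ht
    obtain ⟨k, rfl⟩ := Nat.exists_eq_add_of_le ht'.le
    rw [one_mul, show q ^ (t + k) * W ^ t = (q * W) ^ t * q ^ k by ring, hqW,
      one_pow, one_mul]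
    exact pow_mem hq k
  have hU : ∀ j D R, UU S.K β W φ j D R ≤ S.MM (q ^ (j + D + 1)) := fun j D R => by
    rw [pow_succ, pow_add]
    exact (mul_le_mul' ((mul_le_mul' (MM_pow hB j) (hWD D)).trans MM_mul) (hF R)).trans MM_mul
  let Wi : Submodule S.K S.L := Submodule.span S.K (Set.range (W ^ · : ℕ → S.L))
  have hWi : Wi * Wi ≤ Wi := by
    rw [Submodule.span_mul_span, Submodule.span_le]
    rintro _ ⟨_, ⟨a, rfl⟩, _, ⟨b, rfl⟩, rfl⟩
    exact Submodule.subset_span ⟨a + b, pow_add _ _ _⟩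
  let V : ℕ → ℕ → Submodule S.K S.L := fun j R => bl S.K β ^ j * Wi * bx S.K φ R
  have hV1 : ∀ j R, V j R ≤ V (j + 1) (R + 1) := fun j R => by
    refine mul_le_mul' (mul_le_mul_left ?_ _) (bx_mono φ (Nat.le_succ R))
    intro y hy
    rw [Submodule.pow_succ]
    simpa using Submodule.mul_mem_mul hy (one_mem_bl β)
  have hV2 : ∀ j R, Submodule.span S.K {x} * V j R ≤ V (j + 1) (R + 1) := fun j R => by
    have h1 : Submodule.span S.K {x} * bx S.K φ R ≤ bl S.K β * Wi * bx S.K φ (R + 1) := by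
      rw [bx, Submodule.span_mul_span, Submodule.span_le]
      rintro _ ⟨_, rfl, _, ⟨m, hm, rfl⟩, rfl⟩
      simp only [hxd, Finset.sum_mul, SetLike.mem_coe]
      refine sum_mem fun i _ => ?_
      obtain ⟨c, hc⟩ := hw i m
      rw [mul_assoc (β _), hc, ← mul_assoc (β _)]
      refine Submodule.mul_mem_mul (Submodule.mul_mem_mul (mem_bl β _)
        (Submodule.subset_span ⟨c, rfl⟩)) (mem_bx φ fun i' => ?_)
      have := hm i'
      by_cases h : i' = i
      · subst h; simpa using this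
      · simp [Pi.single_eq_of_ne h]; omega
    calc Submodule.span S.K {x} * V j R
        = bl S.K β ^ j * Wi * (Submodule.span S.K {x} * bx S.K φ R) := by
          simp only [V]; ring
      _ ≤ bl S.K β ^ j * Wi * (bl S.K β * Wi * bx S.K φ (R + 1)) := mul_le_mul_right h1 _
      _ = bl S.K β ^ (j + 1) * (Wi * Wi) * bx S.K φ (R + 1) := by ring
      _ ≤ V (j + 1) (R + 1) := mul_le_mul_left (mul_le_mul_right hWi _) _
  have hV4 : ∀ j R (A : ℕ), V j R ≤ UU S.K β W φ j A R ⊔ S.TT (-(γ * A)) := by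
    intro j R A
    have h1 : Wi ≤ im S.K (W ^ ·) A ⊔ S.TT (-(γ * A)) := by
      rw [Submodule.span_le]
      rintro _ ⟨t, rfl⟩
      by_cases ht : t < A
      · exact Submodule.mem_sup_left (mem_im (W ^ ·) ht)
      · refine Submodule.mem_sup_right ((hW.pow t).mono ?_)
        have : (A : ℝ) ≤ t := by exact_mod_cast not_lt.1 ht
        nlinarith only [hγ, this]
    have hA : -(γ * A) ≤ 0 := by simp only [Left.neg_nonpos_iff]; positivity
    have h2 := (MM_pow hB j).trans MM_le_TT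
    have h3 := (hWD A).trans MM_le_TT
    exact (mul_le_mul' ((mul_le_mul' le_sup_left h1).trans (sup_mul_sup hA h2 h3))
      le_sup_left).trans (sup_mul_sup hA ((mul_le_mul' h2 h3).trans TT_mul)
        ((hF R).trans MM_le_TT))
  refine ⟨{
    U := UU S.K β W φ
    V := V
    F := bx S.K φ
    q := q
    ω := 1
    P := Fintype.card I
    hq := hq
    hq0 := left_ne_zero_of_mul_eq_one hqW
    hqκ := hqκ
    fgU := UU_fg β W φ
    fgF := bx_fg φ
    hU := hU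
    UV := fun J D R =>
      mul_le_mul_left (mul_le_mul_right (Submodule.span_mono (Set.image_subset_range _ _)) _) _
    Vm := hV1
    VU := hV4
    sc := fun ρ D => ⟨im S.K (fun k => W ^ (k * D)) ρ, im_fg _ _, ?_, fun J R => ?_⟩
    lo := fun J D R hD y hy => ?_
    up := fun J D => ⟨bl S.K β ^ J * im S.K (W ^ ·) D, ((bl_fg β).pow J).mul (im_fg _ _), ?_,
      fun R => le_rfl⟩
    F0 := fun R => ⟨φ 0, mem_bx φ (by simp), hφ0⟩
    FP := finrank_bx φ
    hω := one_mem_MM (by simp)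
    hω0 := one_ne_zero
    ωV := fun J R => ?_
    hx := ?_ }⟩
  · simpa only [pow_one] using finrank_im _ _
  · have h : im S.K (W ^ ·) (ρ * D) ≤ im S.K (fun k => W ^ (k * D)) ρ * im S.K (W ^ ·) D := by
      rw [im, Submodule.span_le]
      rintro _ ⟨t, ht, rfl⟩
      have ht' : t < ρ * D := ht
      have hD : 0 < D := Nat.pos_of_ne_zero fun h => by simp [h] at ht'
      have e : W ^ t = W ^ (t / D * D) * W ^ (t % D) := by rw [← pow_add, Nat.div_add_mod']
      simp only [e]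
      exact Submodule.mul_mem_mul
        (mem_im (fun k => W ^ (k * D)) ((Nat.div_lt_iff_lt_mul hD).2 ht'))
        (mem_im (W ^ ·) (Nat.mod_lt _ hD))
    refine (mul_le_mul_left (mul_le_mul_right h _) _).trans (le_of_eq ?_)
    rw [UU]; ring
  · have := Submodule.mul_mem_mul (Submodule.mul_mem_mul
      (Submodule.pow_mem_pow _ (one_mem_bl (K := S.K) β) J)
      (mem_im (K := S.K) (W ^ ·) (t := 0) hD)) hy
    simpa only [UU, one_pow, pow_zero, mul_one, one_mul] using this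
  · rw [pow_one]
    exact (finrank_mul_le ((bl_fg β).pow J) (im_fg _ _)).trans
      (Nat.mul_le_mul (finrank_bl_pow β J) (finrank_im _ _))
  · rw [← Submodule.one_eq_span]; exact (s_one _).le
  · rintro _ rfl
    exact ⟨x, hV2, by rwa [one_mul]⟩

/-- integer value of a list of digits, scaled by `b ^ l` -/
def pv (b l : ℕ) (L : List ℤ) : ℤ := ∑ t ∈ Finset.range l, L.getD t 0 * (b : ℤ) ^ (l - t)

theorem pv_piece {b : ℕ} (hb : 2 ≤ b) (a : ℕ → ℤ) {l x y : ℕ} (h1 : x ≤ y) (h2 : y ≤ x + l) :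
    (pv b l (piece a x y) : ℝ) / b ^ l = ∑ t ∈ Finset.range (y - x), (a (x + t) : ℝ) / b ^ t := by
  have hb0 : (b : ℝ) ≠ 0 := by positivity
  rw [pv]
  push_cast
  rw [Finset.sum_div, ← Finset.sum_subset (Finset.range_mono (by omega : y - x ≤ l))]
  · refine Finset.sum_congr rfl fun t ht => ?_
    have ht' := Finset.mem_range.1 ht
    rw [piece, List.getD_eq_getElem _ _ (by simpa using ht'), pow_sub₀ _ hb0 (by omega)]
    simp only [List.getElem_map, List.getElem_range]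
    field_simp
  · intro t _ ht
    rw [piece, List.getD_eq_default _ _ (by simpa only [List.length_map, List.length_range, tsub_le_iff_right, Finset.mem_range, not_lt] using ht)]
    simp

theorem geom_bd {b : ℕ} (hb : 2 ≤ b) {a : ℕ → ℤ} {M : ℤ} (hM : ∀ n, |a n| ≤ M) (n : ℕ) :
    ‖(a n : ℝ) / b ^ n‖ ≤ M * (1 / 2) ^ n := by
  have hb' : (2 : ℝ) ≤ b := by exact_mod_cast hb
  have h1 : |(a n : ℝ)| ≤ M := by exact_mod_cast hM n
  rw [Real.norm_eq_abs, abs_div, abs_of_pos (by positivity : (0 : ℝ) < b ^ n), one_div, inv_pow,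
    ← div_eq_mul_inv]
  have h0 : (0 : ℝ) ≤ M := (abs_nonneg _).trans h1
  gcongr

theorem sum_bd {b : ℕ} (hb : 2 ≤ b) {a : ℕ → ℤ} {M : ℤ} (hM : ∀ n, |a n| ≤ M) (x m : ℕ) :
    |∑ t ∈ Finset.range m, (a (x + t) : ℝ) / b ^ t| ≤ 2 * M := by
  have h0 : (0 : ℝ) ≤ M := by exact_mod_cast (abs_nonneg _).trans (hM 0)
  refine (Finset.abs_sum_le_sum_abs _ _).trans ((Finset.sum_le_sum fun t _ =>
    geom_bd hb (a := fun t => a (x + t)) (fun n => hM _) t).trans ?_)
  rw [← Finset.mul_sum, mul_comm]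
  exact mul_le_mul_of_nonneg_right (sum_geometric_two_le m) h0

theorem tail_bd {b : ℕ} (hb : 2 ≤ b) {a : ℕ → ℤ} {M : ℤ} (hM : ∀ n, |a n| ≤ M) (K : ℕ) :
    |∑' n, (a n : ℝ) / b ^ n - ∑ n ∈ Finset.range K, (a n : ℝ) / b ^ n| ≤ 2 * M / b ^ K := by
  have hb0 : (0 : ℝ) < b := by positivity
  have hs : Summable fun n => (a n : ℝ) / b ^ n :=
    Summable.of_norm_bounded (summable_geometric_two.mul_left (M : ℝ)) (geom_bd hb hM)
  rw [← hs.sum_add_tsum_nat_add K, add_sub_cancel_left]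
  have e : ∀ n, (a (n + K) : ℝ) / b ^ (n + K) = (a (n + K) : ℝ) / b ^ n / b ^ K := fun n => by
    rw [pow_add, div_div]
  simp only [e]
  rw [tsum_div_const, abs_div, abs_of_pos (pow_pos hb0 K)]
  gcongr
  have := tsum_of_norm_bounded (hasSum_geometric_two.mul_left (M : ℝ))
    (geom_bd hb (a := fun n => a (n + K)) fun n => hM _)
  rwa [mul_comm] at this

theorem sum_cut (f : ℕ → ℝ) (s : ℕ → ℕ) (h0 : s 0 = 0) (hs : ∀ i, s i ≤ s (i + 1)) (P : ℕ) :
    ∑ n ∈ Finset.range (s P), f n =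
      ∑ i ∈ Finset.range P, ∑ t ∈ Finset.range (s (i + 1) - s i), f (s i + t) := by
  induction P with
  | zero => simp only [h0, Finset.range_zero, Finset.sum_empty]
  | succ P ih =>
    rw [Finset.sum_range_succ, ← ih, ← Finset.sum_range_add, Nat.add_sub_cancel' (hs P)]

theorem exists_enum' {α : Type} (T : Finset α) (n : ℕ) (hT : T.card ≤ n) (d : α) :
    ∃ B : Fin n → α, (∀ a, B a = d ∨ B a ∈ T) ∧ ∀ v ∈ T, ∃ a, B a = v := by
  refine ⟨fun a => T.toList.getD a d, fun a => ?_, fun v hv => ?_⟩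
  · by_cases h : (a : ℕ) < T.toList.length
    · simp only [List.getD_eq_getElem _ _ h]
      exact Or.inr (Finset.mem_toList.1 (List.getElem_mem h))
    · simp only [List.getD_eq_default _ _ (not_lt.1 h), true_or]
  · obtain ⟨i, hi, e⟩ := List.getElem_of_mem (Finset.mem_toList.2 hv)
    exact ⟨⟨i, by rw [Finset.length_toList] at hi; omega⟩, by
      simp only [List.getD_eq_getElem _ _ hi, e]⟩

theorem blocks_real {b : ℕ} (hb : 2 ≤ b) {a : ℕ → ℤ} {M : ℤ} (hM : ∀ n, |a n| ≤ M)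
    {r P Λ l : ℕ} {s : ℕ → ℕ} (h0 : s 0 = 0) (h1 : ∀ i, s i ≤ s (i + 1))
    (h2 : ∀ i, s (i + 1) ≤ s i + l) (h3 : Λ * l ≤ s P)
    (h4 : ((Finset.range P).image fun i => piece a (s i) (s (i + 1))).card ≤ r) :
    ∃ lab : Fin P → Fin r, ∃ B : Fin r → ℤ, (∀ c, |(B c : ℝ) / b ^ l| ≤ 2 * M) ∧
      (∀ i, s i ≤ i * l) ∧
      |∑' n, (a n : ℝ) / b ^ n - ∑ i : Fin P, (B (lab i) : ℝ) / b ^ l * (1 / b ^ s i)| ≤
        2 * M / b ^ (Λ * l) := by
  have hb1 : (1 : ℝ) ≤ b := by exact_mod_cast (by omega : 1 ≤ b)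
  have hM0 : (0 : ℝ) ≤ M := by exact_mod_cast (abs_nonneg _).trans (hM 0)
  obtain ⟨B, hB1, hB2⟩ := exists_enum' _ r h4 []
  choose lab hlab using fun i : Fin P => hB2 (piece a (s i) (s (i + 1)))
    (Finset.mem_image.2 ⟨i, Finset.mem_range.2 i.2, rfl⟩)
  refine ⟨lab, fun c => pv b l (B c), fun c => ?_, fun i => ?_, ?_⟩
  · rcases hB1 c with h | h
    · simp only [pv, h, List.getD_eq_getElem?_getD, List.length_nil, not_lt_zero, not_false_eq_true, getElem?_neg, Option.getD_none, zero_mul, Finset.sum_const_zero, Int.cast_zero, zero_div, abs_zero, Nat.ofNat_pos, mul_nonneg_iff_of_pos_left, hM0]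
    · obtain ⟨i, -, e⟩ := Finset.mem_image.1 h
      simp only [← e]
      rw [pv_piece hb a (h1 i) (h2 i)]
      exact sum_bd hb hM _ _
  · induction i with
    | zero => simp [h0]
    | succ i ih => rw [add_one_mul]; exact (h2 i).trans (Nat.add_le_add_right ih _)
  · have e : ∑ i : Fin P, (pv b l (B (lab i)) : ℝ) / b ^ l * (1 / b ^ s i) =
        ∑ n ∈ Finset.range (s P), (a n : ℝ) / b ^ n := by
      rw [sum_cut _ s h0 h1, Finset.sum_range]
      refine Finset.sum_congr rfl fun i _ => ?_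
      rw [hlab, pv_piece hb a (h1 i) (h2 i), Finset.sum_mul]
      refine Finset.sum_congr rfl fun t _ => ?_
      rw [pow_add]
      field_simp
    rw [e]
    refine (tail_bd hb hM _).trans ?_
    gcongr

/-- The common scale. -/
noncomputable def S0 : Sc :=
  ⟨Ultrafilter.of atTop, fun N => N, tendsto_natCast_atTop_atTop.mono_left (Ultrafilter.of_le _)⟩

theorem S0_ev {p : ℕ → Prop} (h : ∀ᶠ N in atTop, p N) : ∀ᶠ N in S0.U, p N :=
  Ultrafilter.of_le atTop h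

theorem Blocky.nice {b : ℕ} (hb : 2 ≤ b) {a : ℕ → ℤ} {M : ℤ} (hM : ∀ n, |a n| ≤ M)
    (h : Blocky a) : Nice S0 {∑' n, (a n : ℝ) / b ^ n} := by
  classical
  obtain ⟨g, h⟩ := h
  have hb1 : (1 : ℝ) < b := by exact_mod_cast hb
  have hb0 : (0 : ℝ) < b := by linarith only [hb1]
  have hl : 0 < Real.log b := Real.log_pos hb1
  refine ⟨Real.log b / (g + 1), Real.log b, 0, 1, by positivity, hl, fun A => ?_⟩
  filter_upwards [h A] with Λ ⟨r, P, hr, hN⟩
  refine ⟨r, hr, ?_⟩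
  have hU2 : ∀ᶠ N in S0.U, ∃ lab : Fin P → Fin r, ∃ T : ℕ × (Fin r → ℤ) × (ℕ → ℕ),
      0 < T.1 ∧ N ≤ (g + 1) * T.1 ∧ T.1 ≤ N ∧ (∀ c, |(T.2.1 c : ℝ) / b ^ T.1| ≤ 2 * M) ∧
      (∀ i, T.2.2 i ≤ i * T.1) ∧ |∑' n, (a n : ℝ) / b ^ n -
        ∑ i : Fin P, (T.2.1 (lab i) : ℝ) / b ^ T.1 * (1 / b ^ T.2.2 i)| ≤
        2 * M / b ^ (Λ * T.1) := by
    refine S0_ev ?_
    filter_upwards [hN, eventually_ge_atTop 1] with N ⟨l, e1, e2, s, h0, h1, h2, h3, h4⟩ hN1
    obtain ⟨lab, B, h5⟩ := blocks_real hb hM h0 h1 h2 h3 h4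
    refine ⟨lab, (l, B, s), Nat.pos_of_ne_zero fun h => ?_, ?_, e2, h5⟩
    · simp only at h
      rw [h] at e1
      omega
    · simp only [add_one_mul]
      omega
  obtain ⟨lab, hU2⟩ := Ultrafilter.eventually_exists_iff.1 hU2
  obtain ⟨T, hT⟩ := hU2.choice
  set l : ℕ → ℕ := fun N => (T N).1 with hld
  set B : ℕ → Fin r → ℤ := fun N => (T N).2.1 with hBd
  set s : ℕ → ℕ → ℕ := fun N => (T N).2.2 with hsd
  have hT' : ∀ᶠ N in S0.U, 0 < l N ∧ N ≤ (g + 1) * l N ∧ l N ≤ N ∧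
      (∀ c, |(B N c : ℝ) / b ^ l N| ≤ 2 * M) ∧ (∀ i, s N i ≤ i * l N) ∧
      |∑' n, (a n : ℝ) / b ^ n - ∑ i : Fin P, (B N (lab i) : ℝ) / b ^ l N * (1 / b ^ s N i)| ≤
        2 * M / b ^ (Λ * l N) := hT
  clear_value l B s
  have hW : S0.Bd (-(Real.log b / (g + 1))) (S0.gm fun N => 1 / (b : ℝ) ^ l N) := by
    refine (Bd_Xp _).of_le ?_
    rw [Xp, gm_abs, gm_abs, gm_le]
    filter_upwards [hT'] with N hN
    rw [abs_of_pos (by positivity), abs_of_pos (Real.exp_pos _), one_div, ← Real.exp_log hb0,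
      ← Real.exp_nat_mul, ← Real.exp_neg, Real.exp_le_exp, Real.log_exp]
    have e : (N : ℝ) ≤ (g + 1) * l N := by exact_mod_cast hN.2.1
    show _ ≤ -(Real.log b / (g + 1)) * (N : ℝ)
    rw [neg_mul, neg_le_neg_iff, div_mul_eq_mul_div, div_le_iff₀ (by positivity)]
    nlinarith only [hl, e]
  have hβ : ∀ c, S0.Bd 0 (S0.gm fun N => (B N c : ℝ) / b ^ l N) := fun c =>
    (Bd_cst (2 * M)).of_le (by
      rw [cst_def, gm_abs, gm_abs, gm_le]
      filter_upwards [hT'] with N hN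
      exact (hN.2.2.2.1 c).trans (le_abs_self _))
  refine sys_one (by positivity) r (fun c => S0.gm fun N => (B N c : ℝ) / b ^ l N) lab
    (fun i => S0.gm fun N => 1 / (b : ℝ) ^ s N i)
    (fun m => S0.gm fun N => 1 / (b : ℝ) ^ ((∑ i : Fin P, m i * s N i) % l N))
    (q := S0.gm fun N => (b : ℝ) ^ l N) (mem_Zh.2 ⟨fun N => b ^ l N, by simp⟩) ?_ ?_ hW
    (fun c => ⟨hβ c, 1, one_mem _, one_ne_zero, ?_⟩)
    (fun m => ⟨Bd_one.of_le ?_, 1, one_mem _, one_ne_zero, ?_⟩) ?_ (fun i m => ?_) ?_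
  · rw [gm_mul, gm_one]
    congr 1; funext N; field_simp
  · refine (Bd_Xp _).of_le ?_
    rw [Xp, gm_abs, gm_abs, gm_le]
    filter_upwards [hT'] with N hN
    rw [abs_of_pos (by positivity), abs_of_pos (Real.exp_pos _), ← Real.exp_log hb0,
      ← Real.exp_nat_mul, Real.exp_le_exp, Real.log_exp]
    have e : (l N : ℝ) ≤ N := by exact_mod_cast hN.2.2.1
    show _ ≤ Real.log b * (N : ℝ)
    nlinarith only [hl, e]
  · refine mem_Zh.2 ⟨fun N => B N c, ?_⟩
    rw [one_mul, gm_mul]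
    congr 1; funext N; field_simp
  · rw [gm_one, gm_abs, gm_abs, gm_le]
    refine Eventually.of_forall fun N => ?_
    rw [abs_one, abs_of_pos (by positivity), div_le_one (by positivity)]
    exact one_le_pow₀ hb1.le
  · refine mem_Zh.2 ⟨fun N => b ^ (l N - (∑ i : Fin P, m i * s N i) % l N), ?_⟩
    rw [one_mul, gm_mul, gm_eq]
    filter_upwards [hT'] with N hN
    have := (Nat.mod_lt (∑ i : Fin P, m i * s N i) hN.1).le
    push_cast
    rw [pow_sub₀ _ hb0.ne' this, one_div]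
  · exact gm_ne_zero.2 (Eventually.of_forall fun N => by positivity)
  · have h1 : ∀ᶠ N in S0.U, ∃ c : Fin (i + 1),
        (s N i + (∑ i : Fin P, m i * s N i) % l N) / l N = c := by
      filter_upwards [hT'] with N hN
      have h2 := Nat.mod_lt (∑ i : Fin P, m i * s N i) hN.1
      have h3 := hN.2.2.2.2.1 i
      exact ⟨⟨_, (Nat.div_lt_iff_lt_mul hN.1).2 (by rw [add_mul]; omega)⟩, rfl⟩
    obtain ⟨c, hc⟩ := Ultrafilter.eventually_exists_iff.1 h1
    refine ⟨c, ?_⟩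
    rw [gm_pow, gm_mul, gm_mul, gm_eq]
    filter_upwards [hc] with N hN
    have e1 : ∑ i' : Fin P, (m + Pi.single i 1 : Fin P → ℕ) i' * s N i' =
        s N i + ∑ i : Fin P, m i * s N i := by
      simp only [Pi.add_apply, add_mul, Finset.sum_add_distrib]
      rw [add_comm, Finset.sum_eq_single i] <;> simp +contextual only [Pi.single_eq_same, one_mul, Nat.add_left_cancel_iff, Finset.mem_univ, ne_eq, not_false_eq_true, Pi.single_eq_of_ne, zero_mul, implies_true, imp_self, not_true_eq_false, IsEmpty.forall_iff]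
    have e2 := Nat.div_add_mod (s N i + (∑ i : Fin P, m i * s N i) % l N) (l N)
    rw [hN, Nat.add_mod_mod] at e2
    rw [e1, one_div, one_div, one_div, one_div, inv_pow, ← pow_mul, ← mul_inv, ← mul_inv,
      ← pow_add, ← pow_add, e2]
  · have h1 := (Bd_cst (S := S0) (2 * M)).mul0 (hW.pow Λ)
    refine (h1.mono (le_of_eq (by ring))).of_le ?_
    simp only [cst_def, gm_mul, gm_sum, gm_sub, gm_pow, gm_abs, gm_le]
    filter_upwards [hT'] with N hN
    refine hN.2.2.2.2.2.trans ((le_of_eq ?_).trans (le_abs_self _))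
    rw [mul_comm Λ, pow_mul]
    simp [div_eq_mul_inv]

theorem nice_empty (S : Sc) : Nice S ∅ :=
  ⟨1, 1, 0, 0, one_pos, one_pos, fun A => (small_const A 0).mono fun _ h =>
    ⟨0, h, ⟨Sys.empty S _⟩⟩⟩

theorem nice_finset (T : Finset ℝ) (h : ∀ ξ ∈ T, Nice S {ξ}) : Nice S T := by
  classical
  induction T using Finset.induction_on with
  | empty => simpa using nice_empty S
  | insert x T _ ih =>
    rw [Finset.coe_insert, Set.insert_eq]
    exact (h x (Finset.mem_insert_self _ _)).union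
      (ih fun ξ hξ => h ξ (Finset.mem_insert_of_mem hξ))

end Pool.Agent.MP_3fa95c_lc.H70

end
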