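import Mathlib
import Pool.Agent.MP_3fa95c_lc.H70.Defs
import Pool.Agent.MP_3fa95c_lc.Mg.H70_Glue

-- part MP_3fa95c_lc.H70.Poly
section

namespace Pool.Agent.MP_3fa95c_lc.H70

section Poly
variable {Q : Type} (nx : Q → ℕ → Option Q)

inductive Run (A : ℕ → Finset Q) : Q → ℕ → ℕ → Prop
  | stop (q : Q) (i : ℕ) : q ∈ A i → nx q i = none → Run A q i i
  | go (q : Q) (i : ℕ) (q' : Q) (j : ℕ) :
      q ∈ A i → nx q i = some q' → Run A q' (i + 1) j → Run A q i j

inductive Reach (A : ℕ → Finset Q) (p : ℕ) : ℕ → ℕ → Prop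
  | first (q : Q) (j t : ℕ) : Run nx A q p j → Reach A p (t + 1) j
  | more (q : Q) (i j t : ℕ) : Reach A p t i → Run nx A q (i + 1) j → Reach A p (t + 1) j

variable {nx}

theorem Run.le {A : ℕ → Finset Q} {q : Q} {i j : ℕ} (h : Run nx A q i j) : i ≤ j := by
  induction h with
  | stop => exact le_rfl
  | go q i q' j _ _ _ ih => omega

theorem Run.mem {A : ℕ → Finset Q} {q : Q} {i j : ℕ} (h : Run nx A q i j) : q ∈ A i := by
  cases h with
  | stop _ _ h _ => exact h
  | go _ _ _ _ h _ _ => exact h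

theorem Run.det {A : ℕ → Finset Q} {q : Q} {i j j' : ℕ} (h : Run nx A q i j)
    (h' : Run nx A q i j') : j = j' := by
  induction h with
  | stop q i _ h1 =>
    cases h' with
    | stop => rfl
    | go _ _ q' _ _ h2 _ => rw [h1] at h2; cases h2
  | go q i q' j _ h1 _ ih =>
    cases h' with
    | stop _ _ _ h2 => rw [h1] at h2; cases h2
    | go _ _ q'' _ _ h2 h3 =>
      rw [h1] at h2
      cases h2
      exact ih h3

theorem Run.mid {A : ℕ → Finset Q} {q : Q} {i j : ℕ} (h : Run nx A q i j) :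
    ∀ x, i ≤ x → x ≤ j → ∃ q', Run nx A q' x j := by
  induction h with
  | stop q i h1 h2 =>
    intro x hx hx'
    obtain rfl : x = i := by omega
    exact ⟨q, Run.stop q x h1 h2⟩
  | go q i q' j h1 h2 h3 ih =>
    intro x hx hx'
    rcases Nat.eq_or_lt_of_le hx with rfl | hlt
    · exact ⟨q, Run.go q i q' j h1 h2 h3⟩
    · exact ih x hlt hx'

theorem Reach.le {A : ℕ → Finset Q} {p t i : ℕ} (h : Reach nx A p t i) : p ≤ i := by
  induction h with
  | first q j t h => exact h.le
  | more q i j t _ h ih => have := h.le; omega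

theorem Reach.pos {A : ℕ → Finset Q} {p t i : ℕ} (h : Reach nx A p t i) : 1 ≤ t := by
  cases h <;> omega

theorem Reach.succ {A : ℕ → Finset Q} {p t i : ℕ} (h : Reach nx A p t i) :
    Reach nx A p (t + 1) i := by
  induction h with
  | first q j t h => exact Reach.first q j (t + 1) h
  | more q i j t _ h ih => exact Reach.more q i j (t + 1) ih h

theorem Reach.start {A : ℕ → Finset Q} {p t i : ℕ} (h : Reach nx A p t i) :
    ∃ q j, Run nx A q p j := by
  induction h with
  | first q j t h => exact ⟨q, j, h⟩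
  | more q i j t _ _ ih => exact ih

open Classical in
theorem reach_card (n : ℕ) : ∀ (c t : ℕ), c + t = n → ∀ (A : ℕ → Finset Q) (p : ℕ),
    (∀ x, p ≤ x → (A x).card ≤ c) →
    ∃ s : Finset ℕ, s.card + 1 ≤ (t + 1) ^ c ∧ ∀ i, Reach nx A p t i → i ∈ s := by
  induction n with
  | zero =>
    intro c t h A p _
    obtain rfl : t = 0 := by omega
    refine ⟨∅, by simp, fun i hi => ?_⟩
    have := hi.pos
    omega
  | succ n ih =>
    intro c t h A p hA
    by_cases hex : ∃ q j, Run nx A q p j
    swap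
    · refine ⟨∅, ?_, fun i hi => absurd hi.start hex⟩
      simpa using Nat.one_le_pow _ _ (Nat.succ_pos t)
    rcases t with _ | t
    · refine ⟨∅, by simp, fun i hi => ?_⟩
      have := hi.pos
      omega
    have hfin : {j | ∃ q, Run nx A q p j}.Finite := by
      have : {j | ∃ q, Run nx A q p j} ⊆ ⋃ q ∈ A p, {j | Run nx A q p j} := by
        rintro j ⟨q, hq⟩
        simp only [Set.mem_iUnion]
        exact ⟨q, hq.mem, hq⟩
      refine Set.Finite.subset (Set.Finite.biUnion (A p).finite_toSet fun q _ => ?_) this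
      exact Set.Subsingleton.finite fun a ha b hb => Run.det ha hb
    obtain ⟨q1, j1, h1⟩ := hex
    obtain ⟨f, ⟨q0, hq0⟩, hmax⟩ := Set.exists_max_image _ id hfin ⟨j1, q1, h1⟩
    have hc : 1 ≤ c := by
      have := hA p le_rfl
      have h2 : 0 < (A p).card := Finset.card_pos.mpr ⟨q0, hq0.mem⟩
      omega
    obtain ⟨c, rfl⟩ : ∃ c', c = c' + 1 := ⟨c - 1, by omega⟩
    set A' : ℕ → Finset Q := fun x => (A x).filter fun q => x ≤ f ∧ ¬ Run nx A q x f with hA'
    have hA'c : ∀ x, p ≤ x → (A' x).card ≤ c := by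
      intro x hx
      by_cases hxf : x ≤ f
      · obtain ⟨q', hq'⟩ := hq0.mid x hx hxf
        have : A' x ⊆ (A x).erase q' := by
          intro q hq
          simp only [hA', Finset.mem_filter] at hq
          exact Finset.mem_erase.mpr ⟨fun e => hq.2.2 (e ▸ hq'), hq.1⟩
        have h3 := Finset.card_le_card this
        rw [Finset.card_erase_of_mem hq'.mem] at h3
        have := hA x hx
        omega
      · have : A' x = ∅ := by
          ext q
          simp [hA', hxf]
        simp [this]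
    have hrun : ∀ q i j, Run nx A q i j → j < f → Run nx A' q i j := by
      intro q i j hr
      induction hr with
      | stop q i a b =>
        intro hj
        refine Run.stop q i ?_ b
        simp only [hA', Finset.mem_filter]
        exact ⟨a, hj.le, fun hh => by have := Run.det (Run.stop q i a b) hh; omega⟩
      | go q i q' j a b c' ih' =>
        intro hj
        refine Run.go q i q' j ?_ b (ih' hj)
        simp only [hA', Finset.mem_filter]
        have := c'.le
        exact ⟨a, by omega, fun hh => by have := Run.det (Run.go q i q' j a b c') hh; omega⟩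
    have hlow : ∀ t' i, Reach nx A p t' i → i < f → Reach nx A' p t' i := by
      intro t' i hr
      induction hr with
      | first q j t h => exact fun hj => Reach.first q j t (hrun _ _ _ h hj)
      | more q i j t _ h ih' =>
        intro hj
        have := h.le
        exact Reach.more q i j t (ih' (by omega)) (hrun _ _ _ h hj)
    have hhigh : ∀ t' i, Reach nx A p t' i → f < i → Reach nx A (f + 1) (t' - 1) i := by
      intro t' i hr
      induction hr with
      | first q j t h =>
        intro hj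
        have := hmax j ⟨q, h⟩
        simp only [id] at this
        omega
      | more q i j t h0 h ih' =>
        intro hj
        have ht := h0.pos
        obtain ⟨t, rfl⟩ : ∃ t', t = t' + 1 := ⟨t - 1, by omega⟩
        by_cases hi : f < i
        · exact Reach.more q i j t (ih' hi) h
        · obtain ⟨q', hq'⟩ := h.mid (f + 1) (by omega) hj
          exact Reach.first q' j t hq'
    obtain ⟨s1, hs1, hm1⟩ := ih c (t + 1) (by omega) A' p hA'c
    obtain ⟨s2, hs2, hm2⟩ := ih (c + 1) t (by omega) A (f + 1)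
      (fun x hx => hA x (by have := hq0.le; omega))
    refine ⟨insert f (s1 ∪ s2), ?_, fun i hi => ?_⟩
    · have h3 := Finset.card_insert_le f (s1 ∪ s2)
      have h4 := Finset.card_union_le s1 s2
      have h5 : (t + 1) ^ (c + 1) ≤ (t + 1) * (t + 1 + 1) ^ c := by
        rw [pow_succ']
        exact Nat.mul_le_mul_left _ (Nat.pow_le_pow_left (by omega) _)
      have h6 : (t + 1 + 1) ^ (c + 1) = (t + 1 + 1) ^ c + (t + 1) * (t + 1 + 1) ^ c := by ring
      omega
    · rcases lt_trichotomy i f with hl | he | hg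
      · exact Finset.mem_insert_of_mem (Finset.mem_union_left _ (hm1 i (hlow _ _ hi hl)))
      · exact he ▸ Finset.mem_insert_self _ _
      · exact Finset.mem_insert_of_mem (Finset.mem_union_right _ (hm2 i (hhigh _ _ hi hg)))

end Poly

end Pool.Agent.MP_3fa95c_lc.H70

end

-- part MP_3fa95c_lc.H70.Merge
section

namespace Pool.Agent.MP_3fa95c_lc.H70

open Finset

/-- words of length `t` over the letters `< k` -/
def words (k t : ℕ) : Finset (List ℕ) :=
  (Fintype.piFinset fun _ : Fin t => range k).image List.ofFn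

theorem card_words (k t : ℕ) : (words k t).card = k ^ t := by
  rw [words, card_image_of_injective _ List.ofFn_injective]
  simp only [Fintype.card_piFinset, card_range, prod_const, card_univ, Fintype.card_fin]

theorem mem_words {k t : ℕ} {w : List ℕ} :
    w ∈ words k t ↔ w.length = t ∧ ∀ x ∈ w, x < k := by
  simp only [words, mem_image, Fintype.mem_piFinset, mem_range]
  constructor
  · rintro ⟨f, hf, rfl⟩
    refine ⟨by simp, fun x hx => ?_⟩
    obtain ⟨i, rfl⟩ := List.mem_ofFn.mp hx
    exact hf i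
  · rintro ⟨rfl, h⟩
    exact ⟨w.get, fun i => h _ (List.get_mem _ _), List.ofFn_get w⟩

namespace DPDA
variable (A : DPDA)

abbrev Conf := Fin A.nq × List (Fin A.ng)

def run (C : A.Conf) (w : List ℕ) : A.Conf := w.foldl A.read C

theorem run_append (C : A.Conf) (w w' : List ℕ) :
    A.run C (w ++ w') = A.run (A.run C w) w' := by
  simp [run, List.foldl_append]

@[simp] theorem run_nil (C : A.Conf) : A.run C [] = C := rfl

theorem run_cons (C : A.Conf) (x : ℕ) (w : List ℕ) :
    A.run C (x :: w) = A.run (A.read C x) w := rfl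

theorem run_concat (C : A.Conf) (x : ℕ) (w : List ℕ) :
    A.run C (w ++ [x]) = A.read (A.run C w) x := by
  simp [run, List.foldl_append]

theorem settle_append (v s : List (Fin A.ng)) : ∀ q : Fin A.nq,
    A.settle q (v ++ s) = if (A.settle q v).2 = [] then A.settle (A.settle q v).1 s
      else ((A.settle q v).1, (A.settle q v).2 ++ s) := by
  induction v with
  | nil => intro q; simp [settle]
  | cons γ v ih =>
    intro q
    rcases h : A.ε q γ with _ | q'
    · simp [settle, h]
    · simp only [List.cons_append, settle, h]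
      exact ih q'

theorem settle_len (v : List (Fin A.ng)) : ∀ q : Fin A.nq,
    (A.settle q v).2.length ≤ v.length := by
  induction v with
  | nil => intro q; simp [settle]
  | cons γ v ih =>
    intro q
    rcases h : A.ε q γ with _ | q'
    · simp [settle, h]
    · simp only [settle, h, List.length_cons]
      exact (ih q').trans (Nat.le_succ _)

theorem read_append (C : A.Conf) (hC : C.2 ≠ []) (s : List (Fin A.ng)) (x : ℕ) :
    A.read (C.1, C.2 ++ s) x = if (A.read C x).2 = [] then A.settle (A.read C x).1 s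
      else ((A.read C x).1, (A.read C x).2 ++ s) := by
  obtain ⟨q, v⟩ := C
  rcases v with _ | ⟨γ, v⟩
  · exact absurd rfl hC
  · simp only [read, List.cons_append, List.head?_cons, List.tail_cons]
    rw [← List.append_assoc]
    exact A.settle_append _ _ _

/-- the top symbol can never be removed -/
def Frozen (k : ℕ) (q : Fin A.nq) (γ : Fin A.ng) : Prop :=
  ∀ w : List ℕ, (∀ x ∈ w, x < k) → (A.run (q, [γ]) w).2 ≠ []

theorem run_noexp (s : List (Fin A.ng)) (w : List ℕ) : ∀ C : A.Conf,
    (∀ j, (A.run C (w.take j)).2 ≠ []) →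
    A.run (C.1, C.2 ++ s) w = ((A.run C w).1, (A.run C w).2 ++ s) := by
  induction w with
  | nil => intro C _; rfl
  | cons x w ih =>
    intro C h
    have h0 : C.2 ≠ [] := by simpa using h 0
    have h1 : (A.read C x).2 ≠ [] := by simpa [run_cons] using h 1
    rw [run_cons, read_append A C h0, if_neg h1, run_cons]
    exact ih (A.read C x) fun j => by simpa [run_cons] using h (j + 1)

theorem pop_one (k : ℕ) (q : Fin A.nq) (γ : Fin A.ng) (h : ¬ A.Frozen k q γ) :
    ∃ w : List ℕ, (∀ x ∈ w, x < k) ∧ ∃ q', ∀ s, A.run (q, γ :: s) w = A.settle q' s := by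
  classical
  have hex : ∃ n, ∃ w : List ℕ, w.length = n ∧ (∀ x ∈ w, x < k) ∧
      (A.run (q, [γ]) w).2 = [] := by
    simp only [Frozen, not_forall, not_not] at h
    obtain ⟨w, hw, h⟩ := h
    exact ⟨_, w, rfl, hw, h⟩
  obtain ⟨w, hl, hw, he⟩ := Nat.find_spec hex
  have hmin := fun m (hm : m < Nat.find hex) => Nat.find_min hex hm
  rcases List.eq_nil_or_concat w with rfl | ⟨w0, x, rfl⟩
  · simp at he
  rw [List.concat_eq_append] at hl hw he
  refine ⟨w0 ++ [x], hw, (A.run (q, [γ]) (w0 ++ [x])).1, fun s => ?_⟩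
  have hne : ∀ j, (A.run (q, [γ]) (w0.take j)).2 ≠ [] := by
    intro j hj
    refine hmin (w0.take j).length ?_ ⟨w0.take j, rfl, fun y hy => hw y ?_, hj⟩
    · rw [← hl]
      simp only [List.length_take, List.length_append, List.length_singleton]
      omega
    · exact List.mem_append_left _ (List.mem_of_mem_take hy)
  have h1 := A.run_noexp s w0 (q, [γ]) hne
  have h2 : (A.run (q, [γ]) w0).2 ≠ [] := by simpa using hne w0.length
  simp only [List.singleton_append] at h1
  rw [run_concat, h1, read_append A _ h2, ← run_concat, if_pos he]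

theorem exists_L (k : ℕ) : ∃ L : ℕ, ∀ q γ, ¬ A.Frozen k q γ →
    ∃ w : List ℕ, w.length ≤ L ∧ (∀ x ∈ w, x < k) ∧
      ∃ q', ∀ s, A.run (q, γ :: s) w = A.settle q' s := by
  classical
  have h : ∀ p : Fin A.nq × Fin A.ng, ∃ L : ℕ, ¬ A.Frozen k p.1 p.2 →
      ∃ w : List ℕ, w.length ≤ L ∧ (∀ x ∈ w, x < k) ∧
        ∃ q', ∀ s, A.run (p.1, p.2 :: s) w = A.settle q' s := by
    intro p
    by_cases hp : A.Frozen k p.1 p.2
    · exact ⟨0, fun h => absurd hp h⟩
    · obtain ⟨w, hw, h⟩ := A.pop_one k p.1 p.2 hp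
      exact ⟨w.length, fun _ => ⟨w, le_rfl, hw, h⟩⟩
  choose f hf using h
  refine ⟨univ.sup f, fun q γ hq => ?_⟩
  obtain ⟨w, hl, hw⟩ := hf (q, γ) hq
  exact ⟨w, hl.trans (le_sup (f := f) (mem_univ (q, γ))), hw⟩

theorem exists_c (k : ℕ) : ∃ c : ℕ, ∀ q o x, x < k → (A.δ q o x).2.length ≤ c := by
  classical
  refine ⟨(univ ×ˢ univ ×ˢ range k).sup fun p => (A.δ p.1 p.2.1 p.2.2).2.length,
    fun q o x hx => ?_⟩
  exact le_sup (f := fun p : Fin A.nq × Option (Fin A.ng) × ℕ => (A.δ p.1 p.2.1 p.2.2).2.length)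
    (b := (q, o, x)) (by simp only [mem_product, mem_univ, mem_range, hx, and_self])

/-- ε-moves on a fixed stack `s`, by position -/
def nx (s : List (Fin A.ng)) (q : Fin A.nq) (i : ℕ) : Option (Fin A.nq) :=
  (s[i]?).bind (A.ε q)

theorem settle_drop (s : List (Fin A.ng)) (n : ℕ) : ∀ (i : ℕ) (q : Fin A.nq), s.length ≤ i + n →
    ∃ j q', Run (A.nx s) (fun _ => univ) q i j ∧ A.settle q (s.drop i) = (q', s.drop j) := by
  induction n with
  | zero =>
    intro i q h
    refine ⟨i, q, Run.stop q i (mem_univ _) ?_, ?_⟩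
    · simp [nx, List.getElem?_eq_none (by omega : s.length ≤ i)]
    · rw [List.drop_eq_nil_of_le (by omega)]
      rfl
  | succ n ih =>
    intro i q h
    by_cases hi : i < s.length
    · rcases he : A.ε q s[i] with _ | q'
      · refine ⟨i, q, Run.stop q i (mem_univ _) ?_, ?_⟩
        · simp [nx, hi, he]
        · rw [List.drop_eq_getElem_cons hi]
          simp only [settle, he]
      · obtain ⟨j, q'', h1, h2⟩ := ih (i + 1) q' (by omega)
        refine ⟨j, q'', Run.go q i q' j (mem_univ _) ?_ h1, ?_⟩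
        · simp [nx, hi, he]
        · rw [List.drop_eq_getElem_cons hi]
          simp only [settle, he]
          exact h2
    · exact ih i q (by omega)

def Pos (s : List (Fin A.ng)) (t i : ℕ) : Prop :=
  i = 0 ∨ Reach (A.nx s) (fun _ => univ) 1 t i

theorem Pos.succ {s : List (Fin A.ng)} {t i : ℕ} (h : A.Pos s t i) : A.Pos s (t + 1) i :=
  h.imp id Reach.succ

theorem settle_pos {s : List (Fin A.ng)} {t i : ℕ} (h : A.Pos s t i) (q : Fin A.nq) :
    ∃ j q', A.Pos s (t + 1) j ∧ A.settle q (s.drop (i + 1)) = (q', s.drop j) := by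
  obtain ⟨j, q', h1, h2⟩ := A.settle_drop s s.length (i + 1) q (by omega)
  refine ⟨j, q', Or.inr ?_, h2⟩
  rcases h with rfl | h
  · exact Reach.first q j t h1
  · exact Reach.more q i j t h h1

theorem pos_card (s : List (Fin A.ng)) (t : ℕ) :
    ∃ S : Finset ℕ, S.card ≤ (t + 1) ^ A.nq ∧ ∀ i, A.Pos s t i → i ∈ S := by
  obtain ⟨S, h1, h2⟩ := reach_card (nx := A.nx s) _ A.nq t rfl (fun _ => univ) 1
    (fun x _ => by simp only [card_univ, Fintype.card_fin, Std.le_refl])
  refine ⟨insert 0 S, (card_insert_le _ _).trans h1, fun i hi => ?_⟩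
  rcases hi with rfl | hi
  · exact mem_insert_self _ _
  · exact mem_insert_of_mem (h2 i hi)

/-- a configuration whose stack is non-empty with a removable top symbol -/
def Live (k : ℕ) (C : A.Conf) : Prop := ∃ γ s, C.2 = γ :: s ∧ ¬ A.Frozen k C.1 γ

def Good (k : ℕ) (C : A.Conf) (t : ℕ) : Prop :=
  ∀ w : List ℕ, (∀ x ∈ w, x < k) → w.length ≤ t → A.Live k (A.run C w)

theorem Good.run {k : ℕ} {C : A.Conf} {t : ℕ} (h : A.Good k C t) {w : List ℕ}
    (hw : ∀ x ∈ w, x < k) {t' : ℕ} (ht : w.length + t' ≤ t) : A.Good k (A.run C w) t' := by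
  intro w' hw' hl
  rw [← run_append]
  refine h _ (fun x hx => ?_) (by simp; omega)
  rcases List.mem_append.mp hx with h | h
  · exact hw x h
  · exact hw' x h

theorem inv_run {k c : ℕ} (hc : ∀ q o x, x < k → (A.δ q o x).2.length ≤ c) (C : A.Conf)
    (t : ℕ) (hG : A.Good k C t) (w : List ℕ) : (∀ x ∈ w, x < k) → w.length ≤ t →
    ∃ (q : Fin A.nq) (y : List (Fin A.ng)) (i : ℕ), y ≠ [] ∧ y.length ≤ 1 + c * w.length ∧
      A.Pos C.2 w.length i ∧ A.run C w = (q, y ++ C.2.drop (i + 1)) := by
  induction w using List.reverseRecOn with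
  | nil =>
    intro _ _
    obtain ⟨γ, s, h, -⟩ := hG [] (by simp) (by simp)
    simp only [run_nil] at h
    refine ⟨C.1, [γ], 0, by simp, by simp, Or.inl rfl, ?_⟩
    simp [h, Prod.ext_iff]
  | append_singleton w x ih =>
    intro hw hl
    simp only [List.length_append, List.length_singleton] at hl ⊢
    obtain ⟨q, y, i, hy, hyl, hp, hr⟩ := ih (fun z hz => hw z (List.mem_append_left _ hz))
      (by omega)
    have hx : x < k := hw x (by simp)
    have hlive := hG (w ++ [x]) hw (by simp; omega)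
    rw [run_concat, hr] at hlive ⊢
    have h1 := A.read_append (q, y) hy (C.2.drop (i + 1)) x
    simp only at h1
    rw [h1] at hlive ⊢
    split_ifs at hlive ⊢ with h2
    · obtain ⟨j, q', hj, he⟩ := A.settle_pos hp (A.read (q, y) x).1
      rw [he] at hlive ⊢
      obtain ⟨γ, s', h3, -⟩ := hlive
      simp only at h3
      refine ⟨q', [γ], j, by simp, by simp, hj, ?_⟩
      have : C.2.drop (j + 1) = s' := by
        rw [← List.drop_drop, h3]
        rfl
      rw [h3, this]
      rfl
    · refine ⟨_, _, i, h2, ?_, hp.succ, rfl⟩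
      have h4 := A.settle_len ((A.δ q y.head? x).2 ++ y.tail) (A.δ q y.head? x).1
      have h5 := hc q y.head? x hx
      simp only [List.length_append, List.length_tail] at h4
      simp only [read]
      rw [mul_add]
      omega

theorem pop_all {k L : ℕ} (hL : ∀ q γ, ¬ A.Frozen k q γ →
    ∃ w : List ℕ, w.length ≤ L ∧ (∀ x ∈ w, x < k) ∧
      ∃ q', ∀ s, A.run (q, γ :: s) w = A.settle q' s) (s : List (Fin A.ng)) (t i : ℕ)
    (hp : A.Pos s t i) (n : ℕ) : ∀ (q : Fin A.nq) (y : List (Fin A.ng)), y ≠ [] → y.length ≤ n →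
      A.Good k (q, y ++ s.drop (i + 1)) (L * n) →
      ∃ w : List ℕ, w.length ≤ L * n ∧ (∀ x ∈ w, x < k) ∧ ∃ q' j, A.Pos s (t + 1) j ∧
        A.run (q, y ++ s.drop (i + 1)) w = (q', s.drop j) := by
  induction n with
  | zero =>
    intro q y hy hl
    exact absurd (List.eq_nil_of_length_eq_zero (by omega)) hy
  | succ n ih =>
    intro q y hy hl hG
    rcases y with _ | ⟨γ, y⟩
    · exact absurd rfl hy
    obtain ⟨γ', s', h1, h2⟩ := hG [] (by simp) (by simp)
    simp only [run_nil, List.cons_append, List.cons.injEq] at h1 h2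
    obtain ⟨rfl, -⟩ := h1
    obtain ⟨w, hwl, hw, q', hr⟩ := hL q γ h2
    have h3 := hr (y ++ s.drop (i + 1))
    rw [A.settle_append] at h3
    split_ifs at h3 with h4
    · obtain ⟨j, q'', hj, he⟩ := A.settle_pos hp (A.settle q' y).1
      refine ⟨w, by rw [mul_add]; omega, hw, q'', j, hj, ?_⟩
      rw [List.cons_append, h3, he]
    · have h5 := A.settle_len y q'
      simp only [List.length_cons] at hl
      have hG' := hG.run A hw (t' := L * n) (by rw [mul_add]; omega)
      rw [List.cons_append, h3] at hG'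
      obtain ⟨w', hwl', hw', q'', j, hj, he⟩ := ih _ _ h4 (by omega) hG'
      refine ⟨w ++ w', by simp only [List.length_append]; rw [mul_add]; omega, fun x hx => ?_,
        q'', j, hj, ?_⟩
      · rcases List.mem_append.mp hx with h | h
        · exact hw x h
        · exact hw' x h
      · rw [run_append, List.cons_append, h3, he]

theorem exists_j (a b c : ℕ) : ∃ j : ℕ, (a * j + b) * (j + 2) ^ c < 2 ^ j := by
  have h := tendsto_pow_const_div_const_pow_of_one_lt (c + 1) (r := (2 : ℝ)) (by norm_num)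
  have h2 : ∀ᶠ n : ℕ in Filter.atTop,
      (n : ℝ) ^ (c + 1) / 2 ^ n < 1 / ((a + b + 1) * 2 ^ c) :=
    h.eventually (gt_mem_nhds (by positivity))
  obtain ⟨j, hj, hj2⟩ := (h2.and (Filter.eventually_ge_atTop 2)).exists
  refine ⟨j, ?_⟩
  rw [div_lt_div_iff₀ (by positivity) (by positivity), one_mul] at hj
  have h3 : (a * j + b) * (j + 2) ^ c ≤ j ^ (c + 1) * ((a + b + 1) * 2 ^ c) := by
    have e1 : (j + 2) ^ c ≤ (2 * j) ^ c := Nat.pow_le_pow_left (by omega) _
    have e2 : a * j + b ≤ (a + b + 1) * j := by nlinarith only [hj2]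
    calc (a * j + b) * (j + 2) ^ c ≤ ((a + b + 1) * j) * (2 * j) ^ c := Nat.mul_le_mul e2 e1
      _ = _ := by rw [mul_pow]; ring
  have h4 : ((j ^ (c + 1) * ((a + b + 1) * 2 ^ c) : ℕ) : ℝ) < ((2 ^ j : ℕ) : ℝ) := by
    push_cast
    exact hj
  exact h3.trans_lt (by exact_mod_cast h4)

/-- within a bounded number of letters, either a frozen or empty stack occurs or two words merge -/
theorem merge (k : ℕ) (hk : 2 ≤ k) : ∃ t : ℕ, 1 ≤ t ∧ ∀ C : A.Conf, A.Good k C t →
    ∃ w ∈ words k t, ∃ w' ∈ words k t, w ≠ w' ∧ A.run C w = A.run C w' := by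
  classical
  obtain ⟨L, hL⟩ := A.exists_L k
  obtain ⟨c, hc⟩ := A.exists_c k
  obtain ⟨j, hj⟩ := exists_j (L * c * A.nq) ((L + 1) * A.nq + 1) A.nq
  have hj1 : 1 ≤ j := by
    rcases j with _ | j
    · have : 0 < (L * c * A.nq * 0 + ((L + 1) * A.nq + 1)) * (0 + 2) ^ A.nq := by positivity
      omega
    · omega
  refine ⟨j + L * (1 + c * j), by omega, fun C hG => ?_⟩
  obtain ⟨S, hS, hSm⟩ := A.pos_card C.2 (j + 1)
  have key : ∀ v ∈ words k j, ∃ w : List ℕ, w.length ≤ L * (1 + c * j) ∧ (∀ x ∈ w, x < k) ∧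
      ∃ q' i, i ∈ S ∧ A.run C (v ++ w) = (q', C.2.drop i) := by
    intro v hv
    obtain ⟨hvl, hv⟩ := mem_words.mp hv
    obtain ⟨q, y, i, hy, hyl, hp, hr⟩ := A.inv_run hc C _ hG v hv (by omega)
    have hG' := hG.run A hv (t' := L * (1 + c * j)) (by omega)
    rw [hr] at hG'
    rw [hvl] at hyl hp
    obtain ⟨w, hwl, hw, q', i', hi', he⟩ := A.pop_all hL C.2 j i hp _ q y hy hyl hG'
    exact ⟨w, hwl, hw, q', i', hSm _ hi', by rw [run_append, hr, he]⟩
  have : Nonempty (Fin A.nq) := ⟨A.q0⟩
  choose! f hfl hf q ix hix hrun using key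
  have hcard : (range (L * (1 + c * j) + 1) ×ˢ (univ : Finset (Fin A.nq)) ×ˢ S).card <
      (words k j).card := by
    rw [card_words, card_product, card_product, card_range, card_univ, Fintype.card_fin]
    have e1 : 2 ^ j ≤ k ^ j := Nat.pow_le_pow_left hk _
    have e2 : (L * (1 + c * j) + 1) * (A.nq * S.card) ≤
        (L * c * A.nq * j + ((L + 1) * A.nq + 1)) * (j + 2) ^ A.nq := by
      rw [← mul_assoc]
      exact Nat.mul_le_mul (by linarith only []) hS
    omega
  obtain ⟨v, hv, v', hv', hne, he⟩ := exists_ne_map_eq_of_card_lt_of_maps_to hcard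
    (f := fun v => ((f v).length, q v, ix v)) (fun v hv => by
      have := hfl v hv
      simp only [coe_product, Set.mem_prod, mem_coe, mem_range, mem_univ, true_and]
      exact ⟨by omega, hix v hv⟩)
  simp only [Prod.mk.injEq] at he
  obtain ⟨e1, e2, e3⟩ := he
  have hmem : ∀ u ∈ words k j, u ++ f u ++ List.replicate (L * (1 + c * j) - (f u).length) 0 ∈
      words k (j + L * (1 + c * j)) := by
    intro u hu
    have h1 := hfl u hu
    have h2 := hf u hu
    obtain ⟨h3, h4⟩ := mem_words.mp hu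
    refine mem_words.mpr ⟨by simp only [List.append_assoc, List.length_append, List.length_replicate]; omega, fun x hx => ?_⟩
    simp only [List.mem_append, List.mem_replicate] at hx
    rcases hx with (h | h) | h
    · exact h4 x h
    · exact h2 x h
    · omega
  refine ⟨_, hmem v hv, _, hmem v' hv', fun h => hne ?_, ?_⟩
  · rw [List.append_assoc, List.append_assoc] at h
    exact (List.append_inj h (by rw [(mem_words.mp hv).1, (mem_words.mp hv').1])).1
  · rw [run_append, run_append A C (v' ++ f v'), hrun v hv, hrun v' hv', e1, e2, e3]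

end DPDA

end Pool.Agent.MP_3fa95c_lc.H70

end

-- part MP_3fa95c_lc.H70.PDA
section

namespace Pool.Agent.MP_3fa95c_lc.H70

open Finset Filter

def wordsLe (k t : ℕ) : Finset (List ℕ) := (range (t + 1)).biUnion (words k)

theorem mem_wordsLe {k t : ℕ} {w : List ℕ} :
    w ∈ wordsLe k t ↔ w.length ≤ t ∧ ∀ x ∈ w, x < k := by
  simp only [wordsLe, mem_biUnion, mem_range, mem_words]
  constructor
  · rintro ⟨a, ha, rfl, h⟩
    exact ⟨by omega, h⟩
  · rintro ⟨h, h'⟩
    exact ⟨_, by omega, rfl, h'⟩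

theorem card_wordsLe {k : ℕ} (hk : 2 ≤ k) (t : ℕ) : (wordsLe k t).card ≤ k ^ (t + 1) := by
  refine card_biUnion_le.trans ?_
  simp only [card_words]
  exact (Nat.geomSum_lt hk fun a ha => mem_range.mp ha).le

namespace DPDA
variable (A : DPDA)

open Classical in
/-- the future behaviour of a configuration -/
noncomputable def res (k : ℕ) (C : A.Conf) : List ℕ → ℤ := fun w =>
  if ∀ x ∈ w, x < k then A.τ (A.run C w).1 (A.run C w).2.head? else 0

theorem res_run_congr {k : ℕ} {C C' : A.Conf} (h : A.res k C = A.res k C') {w : List ℕ}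
    (hw : ∀ x ∈ w, x < k) : A.res k (A.run C w) = A.res k (A.run C' w) := by
  funext v
  have h1 := congrFun h (w ++ v)
  simp only [res] at h1 ⊢
  split_ifs with hv
  · have : ∀ x ∈ w ++ v, x < k := fun x hx => (List.mem_append.mp hx).elim (hw x) (hv x)
    rw [if_pos this, if_pos this, run_append, run_append] at h1
    exact h1
  · rfl

theorem res_frozen {k : ℕ} {q : Fin A.nq} {γ : Fin A.ng} (h : A.Frozen k q γ)
    (s : List (Fin A.ng)) : A.res k (q, γ :: s) = A.res k (q, [γ]) := by
  funext v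
  simp only [res]
  split_ifs with hv
  · have h1 := A.run_noexp s v (q, [γ]) fun j => h _ fun x hx => hv x (List.mem_of_mem_take hx)
    simp only [List.singleton_append] at h1
    have h2 := h v hv
    rw [h1]
    rcases h3 : (A.run (q, [γ]) v).2 with _ | ⟨a, b⟩
    · exact absurd h3 h2
    · simp
  · rfl

/-- base configurations -/
def base : Finset A.Conf :=
  (univ : Finset (Fin A.nq × Option (Fin A.ng))).image fun p => (p.1, p.2.toList)

theorem card_base : A.base.card ≤ A.nq * (A.ng + 1) := by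
  refine card_image_le.trans ?_
  simp only [card_univ, Fintype.card_prod, Fintype.card_fin, Fintype.card_option, Std.le_refl]

theorem res_dead {k : ℕ} {C : A.Conf} (h : ¬ A.Live k C) : ∃ C' ∈ A.base, A.res k C = A.res k C' := by
  obtain ⟨q, s⟩ := C
  rcases s with _ | ⟨γ, s⟩
  · exact ⟨(q, []), mem_image.mpr ⟨(q, none), mem_univ _, rfl⟩, rfl⟩
  · have : A.Frozen k q γ := by
      by_contra hh
      exact h ⟨γ, s, rfl, hh⟩
    exact ⟨(q, [γ]), mem_image.mpr ⟨(q, some γ), mem_univ _, rfl⟩, A.res_frozen this s⟩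

open Classical in
noncomputable def G (k j : ℕ) : Finset (List ℕ → ℤ) :=
  (A.base ×ˢ wordsLe k j).image fun p => A.res k (A.run p.1 p.2)

open Classical in
noncomputable def T (k m : ℕ) : Finset (List ℕ → ℤ) :=
  (wordsLe k m).image fun w => A.res k (A.run (A.q0, []) w)

theorem card_G {k : ℕ} (hk : 2 ≤ k) (j : ℕ) : (A.G k j).card ≤ A.nq * (A.ng + 1) * k ^ (j + 1) := by
  classical
  refine card_image_le.trans ?_
  rw [card_product]
  exact Nat.mul_le_mul A.card_base (card_wordsLe hk j)

theorem mem_G {k j : ℕ} {C C' : A.Conf} (hC : C' ∈ A.base) (h : A.res k C = A.res k C')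
    {w : List ℕ} (hw : ∀ x ∈ w, x < k) (hl : w.length ≤ j) : A.res k (A.run C w) ∈ A.G k j := by
  classical
  rw [A.res_run_congr h hw]
  exact mem_image.mpr ⟨(C', w), mem_product.mpr ⟨hC, mem_wordsLe.mpr ⟨hl, hw⟩⟩, rfl⟩

open Classical in
theorem succ_card {k t : ℕ} (ht : ∀ C : A.Conf, A.Good k C t →
    ∃ w ∈ words k t, ∃ w' ∈ words k t, w ≠ w' ∧ A.run C w = A.run C w') (hk : 1 ≤ k)
    (C : A.Conf) (j : ℕ) :
    (((words k t).image fun w => A.res k (A.run C w)) \ A.G k (j + t)).card ≤ k ^ t - 1 := by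
  have key : ∃ w0 ∈ words k t, ((words k t).image fun w => A.res k (A.run C w)) \ A.G k (j + t) ⊆
      ((words k t).erase w0).image fun w => A.res k (A.run C w) := by
    by_cases hG : A.Good k C t
    · obtain ⟨w, hw, w', hw', hne, he⟩ := ht C hG
      refine ⟨w, hw, fun ρ hρ => ?_⟩
      obtain ⟨v, hv, rfl⟩ := mem_image.mp (mem_sdiff.mp hρ).1
      by_cases hvw : v = w
      · exact mem_image.mpr ⟨w', mem_erase.mpr ⟨hne.symm, hw'⟩, by rw [hvw, he]⟩
      · exact mem_image.mpr ⟨v, mem_erase.mpr ⟨hvw, hv⟩, rfl⟩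
    · simp only [Good, not_forall] at hG
      obtain ⟨w, hw, hl, hd⟩ := hG
      obtain ⟨C', hC', he⟩ := A.res_dead hd
      have hrep : ∀ x ∈ List.replicate (t - w.length) 0, x < k := by
        intro x hx
        have := (List.mem_replicate.mp hx).2
        omega
      refine ⟨w ++ List.replicate (t - w.length) 0, mem_words.mpr ⟨by simp only [List.length_append, List.length_replicate]; omega,
        fun x hx => (List.mem_append.mp hx).elim (hw x) (hrep x)⟩, fun ρ hρ => ?_⟩
      obtain ⟨h1, h2⟩ := mem_sdiff.mp hρ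
      obtain ⟨v, hv, rfl⟩ := mem_image.mp h1
      refine mem_image.mpr ⟨v, mem_erase.mpr ⟨fun e => h2 ?_, hv⟩, rfl⟩
      rw [e, run_append]
      exact A.mem_G hC' he hrep (by simp; omega)
  obtain ⟨w0, hw0, h⟩ := key
  refine (card_le_card h).trans (card_image_le.trans ?_)
  rw [card_erase_of_mem hw0, card_words]

open Classical in
theorem T_step {k t : ℕ} (ht : ∀ C : A.Conf, A.Good k C t →
    ∃ w ∈ words k t, ∃ w' ∈ words k t, w ≠ w' ∧ A.run C w = A.run C w') (hk : 1 ≤ k)
    (m j : ℕ) : (A.T k (m + t) \ A.G k (j + t)).card ≤ (k ^ t - 1) * (A.T k m \ A.G k j).card := by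
  have hrep : ∀ ρ ∈ A.T k m \ A.G k j, ∃ C : A.Conf, ρ = A.res k C := by
    intro ρ hρ
    obtain ⟨w, -, rfl⟩ := mem_image.mp (mem_sdiff.mp hρ).1
    exact ⟨_, rfl⟩
  have : Nonempty A.Conf := ⟨(A.q0, [])⟩
  choose! f hf using hrep
  have hsub : A.T k (m + t) \ A.G k (j + t) ⊆ (A.T k m \ A.G k j).biUnion fun ρ =>
      ((words k t).image fun w => A.res k (A.run (f ρ) w)) \ A.G k (j + t) := by
    intro ρ hρ
    obtain ⟨h1, h2⟩ := mem_sdiff.mp hρ
    obtain ⟨w, hw, rfl⟩ := mem_image.mp h1
    obtain ⟨hl, hw⟩ := mem_wordsLe.mp hw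
    by_cases hwt : w.length ≤ t
    · exact absurd (A.mem_G (C' := (A.q0, [])) (mem_image.mpr ⟨(A.q0, none), mem_univ _, rfl⟩)
        rfl hw (by omega)) h2
    have hsplit : w = w.take (w.length - t) ++ w.drop (w.length - t) := by simp
    have hw1 : ∀ x ∈ w.take (w.length - t), x < k := fun x hx => hw x (List.mem_of_mem_take hx)
    have hw2 : ∀ x ∈ w.drop (w.length - t), x < k := fun x hx => hw x (List.mem_of_mem_drop hx)
    have hl2 : (w.drop (w.length - t)).length = t := by simp only [List.length_drop]; omega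
    have hm : A.res k (A.run (A.q0, []) (w.take (w.length - t))) ∈ A.T k m \ A.G k j := by
      refine mem_sdiff.mpr ⟨mem_image.mpr ⟨_, mem_wordsLe.mpr ⟨by simp only [List.length_take, tsub_le_iff_right, le_add_iff_nonneg_right, zero_le, inf_of_le_left]; omega, hw1⟩, rfl⟩,
        fun hg => h2 ?_⟩
      obtain ⟨⟨C', v⟩, hp, he⟩ := mem_image.mp hg
      obtain ⟨hC', hv⟩ := mem_product.mp hp
      obtain ⟨hvl, hv⟩ := mem_wordsLe.mp hv
      simp only at he hC' hvl hv
      rw [hsplit, run_append, ← A.res_run_congr he hw2, ← run_append]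
      exact A.mem_G hC' rfl (fun x hx => (List.mem_append.mp hx).elim (hv x) (hw2 x))
        (by rw [List.length_append]; omega)
    refine mem_biUnion.mpr ⟨_, hm, mem_sdiff.mpr ⟨mem_image.mpr ⟨_, mem_words.mpr ⟨hl2, hw2⟩, ?_⟩,
      h2⟩⟩
    rw [← A.res_run_congr (hf _ hm) hw2, ← run_append, ← hsplit]
  refine (card_le_card hsub).trans (card_biUnion_le.trans ?_)
  rw [mul_comm]
  exact sum_le_card_nsmul _ _ _ fun ρ _ => A.succ_card ht hk _ _

open Classical in
theorem card_T {k t : ℕ} (ht : ∀ C : A.Conf, A.Good k C t →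
    ∃ w ∈ words k t, ∃ w' ∈ words k t, w ≠ w' ∧ A.run C w = A.run C w') (hk : 2 ≤ k)
    (m i : ℕ) : (A.T k (m + i * t)).card ≤
      A.nq * (A.ng + 1) * k ^ (i * t + 1) + (k ^ t - 1) ^ i * k ^ (m + 1) := by
  have h : (A.T k (m + i * t) \ A.G k (i * t)).card ≤ (k ^ t - 1) ^ i * k ^ (m + 1) := by
    induction i with
    | zero =>
      simp only [zero_mul, add_zero, pow_zero, one_mul]
      exact (card_le_card sdiff_subset).trans (card_image_le.trans (card_wordsLe hk m))
    | succ i ih =>
      rw [add_mul, one_mul, ← add_assoc, pow_succ', mul_assoc]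
      exact (A.T_step ht (by omega) _ _).trans (Nat.mul_le_mul_left _ ih)
  have h2 := card_sdiff_add_card (A.T k (m + i * t)) (A.G k (i * t))
  have h3 := card_le_card (subset_union_left (s₁ := A.T k (m + i * t)) (s₂ := A.G k (i * t)))
  have h4 := A.card_G hk (i * t)
  omega

theorem digit_block {k : ℕ} (hk : 2 ≤ k) (L n t : ℕ) (hn : 0 < n) (ht : t < k ^ L) :
    A.digit k (n * k ^ L + t) = A.res k (A.run (A.q0, []) (Nat.digits k n).reverse)
      (Nat.digits k t ++ List.replicate (L - (Nat.digits k t).length) 0).reverse := by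
  have h1 : (Nat.digits k t).length ≤ L := (Nat.digits_length_le_iff (by omega) t).mpr ht
  have h2 := Nat.digits_append_zeroes_append_digits (b := k) (k := L - (Nat.digits k t).length)
    (m := n) (n := t) (by omega) hn
  rw [Nat.add_sub_cancel' h1, add_comm, mul_comm] at h2
  have h3 : ∀ x ∈ (Nat.digits k t ++ List.replicate (L - (Nat.digits k t).length) 0).reverse,
      x < k := by
    intro x hx
    rw [List.mem_reverse, List.mem_append] at hx
    rcases hx with h | h
    · exact Nat.digits_lt_base (by omega) h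
    · have := (List.mem_replicate.mp h).2
      omega
  rw [res, if_pos h3, ← run_append, ← List.reverse_append, h2]
  rfl

theorem small_geom (B c : ℕ) (hB : 2 ≤ B) :
    ∀ᶠ i : ℕ in atTop, c * (i + 1) * (B * (B - 1)) ^ i ≤ (B ^ 2) ^ i := by
  have hB' : (2 : ℝ) ≤ B := by exact_mod_cast hB
  have h := tendsto_pow_const_div_const_pow_of_one_lt 1 (r := (B : ℝ) / (B - 1))
    (by rw [one_lt_div (by linarith only [hB'])]; linarith only [])
  have h2 : ∀ᶠ n : ℕ in atTop, (n : ℝ) ^ 1 / ((B : ℝ) / (B - 1)) ^ n < 1 / (2 * c + 1) :=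
    h.eventually (gt_mem_nhds (by positivity))
  filter_upwards [h2, eventually_ge_atTop 1] with i hi hi1
  have hp : (0 : ℝ) < B - 1 := by linarith only [hB']
  rw [div_lt_div_iff₀ (by positivity) (by positivity), one_mul, pow_one, div_pow,
    lt_div_iff₀ (by positivity)] at hi
  have h3 : ((c * (i + 1) * (B * (B - 1)) ^ i : ℕ) : ℝ) ≤ (((B ^ 2) ^ i : ℕ) : ℝ) := by
    push_cast [Nat.cast_sub (by omega : 1 ≤ B)]
    have e1 : (1 : ℝ) ≤ i := by exact_mod_cast hi1
    have e2 : (c : ℝ) * (i + 1) ≤ i * (2 * c + 1) := by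
      have : (0 : ℝ) ≤ c := by positivity
      nlinarith only [e1]
    rw [mul_pow, sq, mul_pow]
    calc (c : ℝ) * (i + 1) * ((B : ℝ) ^ i * (B - 1) ^ i)
        = (B : ℝ) ^ i * (c * (i + 1) * (B - 1) ^ i) := by ring
      _ ≤ (B : ℝ) ^ i * (i * (2 * c + 1) * (B - 1) ^ i) := by gcongr
      _ ≤ (B : ℝ) ^ i * (B : ℝ) ^ i := by gcongr
  exact_mod_cast h3

theorem blocky {k : ℕ} (hk : 2 ≤ k) : Blocky (A.digit k) := by
  classical
  obtain ⟨t, ht1, ht⟩ := A.merge k hk
  set B := k ^ t with hB
  have hB2 : 2 ≤ B := le_trans hk (by simpa using Nat.pow_le_pow_right (by omega : 0 < k) ht1)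
  have hBB : 1 < B ^ 2 := by nlinarith only [hB2]
  refine ⟨k, fun c => ?_⟩
  set f := A.nq * (A.ng + 1) with hf
  obtain ⟨i0, hi0⟩ := eventually_atTop.mp
    (small_geom B (c * ((f + 1) * k + 2) * (2 * B + 1) * B ^ 2) hB2)
  filter_upwards [eventually_ge_atTop ((B ^ 2) ^ i0)] with Λ hΛ
  have hpos : Λ ≠ 0 := by
    have : 0 < (B ^ 2) ^ i0 := by positivity
    omega
  set i := Nat.log (B ^ 2) Λ + 1 with hi
  have hi1 : i0 ≤ i := by
    have := (Nat.le_log_iff_pow_le hBB hpos).mpr hΛ
    omega
  have hlt : Λ < (B ^ 2) ^ i := Nat.lt_pow_succ_log_self hBB Λ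
  have hle : (B ^ 2) ^ i ≤ B ^ 2 * Λ := by
    rw [hi, pow_succ']
    exact Nat.mul_le_mul_left _ (Nat.pow_log_le_self _ hpos)
  have hP : (B ^ 2) ^ i = k ^ (i * t + i * t) := by
    rw [hB, ← pow_mul, ← pow_mul]
    congr 1
    ring
  refine ⟨(A.T k (i * t + i * t)).card + 1, (B ^ 2) ^ i, ?_, ?_⟩
  · have h1 := A.card_T ht hk (i * t) i
    have e0 : k ^ (i * t + 1) = B ^ i * k := by rw [pow_succ, hB, ← pow_mul, mul_comm i t]
    rw [e0, ← hB, ← hf] at h1
    have e1 : 1 ≤ (B - 1) ^ i := Nat.one_le_pow _ _ (by omega)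
    have e2 : 1 ≤ B ^ i := Nat.one_le_pow _ _ (by omega)
    have h2 : (A.T k (i * t + i * t)).card + 1 + 1 ≤ ((f + 1) * k + 2) * (B * (B - 1)) ^ i := by
      rw [mul_pow]
      have e3 : f * (B ^ i * k) ≤ f * k * (B ^ i * (B - 1) ^ i) := by
        calc f * (B ^ i * k) = f * k * (B ^ i * 1) := by ring
          _ ≤ _ := by gcongr
      have e4 : 1 ≤ B ^ i * (B - 1) ^ i := Nat.mul_le_mul e2 e1
      linarith only [h1, e3, e4]
    have h3 : Nat.log 2 Λ + 1 ≤ (2 * B + 1) * (i + 1) := by
      have e5 : B ≤ 2 ^ B := Nat.lt_two_pow_self.le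
      have e6 : Λ < 2 ^ (2 * B * i) := by
        refine hlt.trans_le ?_
        calc (B ^ 2) ^ i ≤ ((2 ^ B) ^ 2) ^ i := by gcongr
          _ = _ := by rw [← pow_mul, ← pow_mul]; congr 1; ring
      have e7 := Nat.log_lt_of_lt_pow hpos e6
      linarith only [e7]
    have h4 := (hi0 i hi1).trans hle
    have h5 : B ^ 2 * (c * ((A.T k (i * t + i * t)).card + 1 + 1) * (Nat.log 2 Λ + 1)) ≤
        B ^ 2 * Λ := by
      refine le_trans ?_ h4
      calc B ^ 2 * (c * ((A.T k (i * t + i * t)).card + 1 + 1) * (Nat.log 2 Λ + 1))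
          ≤ B ^ 2 * (c * (((f + 1) * k + 2) * (B * (B - 1)) ^ i) * ((2 * B + 1) * (i + 1))) := by
            gcongr
        _ = _ := by ring
    exact Nat.le_of_mul_le_mul_left h5 (by positivity)
  · filter_upwards [eventually_ge_atTop 1] with N hN
    refine ⟨k ^ Nat.log k N, ?_, Nat.pow_log_le_self _ (by omega), fun n => n * k ^ Nat.log k N,
      by simp, fun n => Nat.mul_le_mul_right _ (Nat.le_succ n), fun n => (add_one_mul _ _).le,
      Nat.mul_le_mul_right _ hlt.le, ?_⟩
    · rw [← pow_succ']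
      exact (Nat.lt_pow_succ_log_self (by omega) N).le
    set L := Nat.log k N
    have hsub : ((range ((B ^ 2) ^ i)).image fun n =>
        piece (A.digit k) (n * k ^ L) ((n + 1) * k ^ L)) ⊆
        insert (piece (A.digit k) (0 * k ^ L) ((0 + 1) * k ^ L))
          ((A.T k (i * t + i * t)).image fun ρ => (List.range (k ^ L)).map fun u =>
            ρ (Nat.digits k u ++ List.replicate (L - (Nat.digits k u).length) 0).reverse) := by
      intro p hp
      obtain ⟨n, hn, rfl⟩ := mem_image.mp hp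
      rcases Nat.eq_zero_or_pos n with rfl | hn0
      · exact mem_insert_self _ _
      refine mem_insert_of_mem (mem_image.mpr ⟨A.res k (A.run (A.q0, []) (Nat.digits k n).reverse),
        mem_image.mpr ⟨_, mem_wordsLe.mpr ⟨?_, fun x hx => ?_⟩, rfl⟩, ?_⟩)
      · rw [List.length_reverse, Nat.digits_length_le_iff (by omega), ← hP]
        exact mem_range.mp hn
      · exact Nat.digits_lt_base (by omega) (List.mem_reverse.mp hx)
      · rw [piece, add_mul, one_mul, Nat.add_sub_cancel_left]
        refine List.map_congr_left fun u hu => ?_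
        exact (A.digit_block hk L n u hn0 (List.mem_range.mp hu)).symm
    exact (card_le_card hsub).trans ((card_insert_le _ _).trans
      (Nat.succ_le_succ card_image_le))

theorem digit_bdd (k : ℕ) : ∃ M : ℤ, ∀ n, |A.digit k n| ≤ M := by
  obtain ⟨M, hM⟩ := (Set.finite_range fun p : Fin A.nq × Option (Fin A.ng) =>
    |A.τ p.1 p.2|).bddAbove
  exact ⟨M, fun n => hM ⟨(_, _), rfl⟩⟩

end DPDA

end Pool.Agent.MP_3fa95c_lc.H70

end

-- part MP_3fa95c_lc.H70.Tag
section

namespace Pool.Agent.MP_3fa95c_lc.H70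

open Finset Filter

theorem TagGen.bdd {a : ℕ → ℤ} (h : TagGen a) : ∃ M : ℤ, ∀ n, |a n| ≤ M := by
  obtain ⟨m, σ, u, φ, δ, n0, -, ha, -⟩ := h
  obtain ⟨M, hM⟩ := (Set.finite_range fun p : Fin m => |φ p|).bddAbove
  exact ⟨M, fun n => ha n ▸ hM ⟨_, rfl⟩⟩

theorem TagGen.blocky {a : ℕ → ℤ} (h : TagGen a) : Blocky a := by
  classical
  obtain ⟨m, σ, u, φ, δ, n0, hδ, ha, hfix, hdil⟩ := h
  set W : ℕ → ℕ := fun n => ((List.range n).flatMap fun j => σ (u j)).length with hW
  let S : ℕ → Fin m → List (Fin m) := fun k c => (fun w : List (Fin m) => w.flatMap σ)^[k] [c]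
  have hS : ∀ k n, (List.range n).flatMap (fun j => S k (u j)) =
      (List.range (W^[k] n)).map u := by
    intro k
    induction k with
    | zero =>
      intro n
      simp only [S, Function.iterate_zero, id]
      exact List.map_eq_flatMap.symm
    | succ k ih =>
      intro n
      have e : (List.range n).flatMap (fun j => S (k + 1) (u j)) =
          ((List.range n).flatMap (fun j => S k (u j))).flatMap σ := by
        rw [List.flatMap_assoc]
        simp only [S, Function.iterate_succ_apply']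
      rw [e, ih, List.flatMap_map, Function.iterate_succ_apply']
      exact hfix _
  have hstep : ∀ k n, W^[k] (n + 1) = W^[k] n + (S k (u n)).length ∧
      (List.range (S k (u n)).length).map (fun t => u (W^[k] n + t)) = S k (u n) := by
    intro k n
    have h1 := hS k (n + 1)
    rw [List.range_succ, List.flatMap_append, hS] at h1
    simp only [List.flatMap_cons, List.flatMap_nil, List.append_nil] at h1
    have h2 : W^[k] (n + 1) = W^[k] n + (S k (u n)).length := by
      simpa using (congrArg List.length h1).symm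
    refine ⟨h2, ?_⟩
    rw [h2, List.range_add, List.map_append, List.append_cancel_left_eq, List.map_map] at h1
    exact h1.symm
  have hmono : ∀ k, Monotone W^[k] := fun k =>
    monotone_nat_of_le_succ fun n => by rw [(hstep k n).1]; omega
  have hW0 : ∀ k, W^[k] 0 = 0 := fun k => Function.iterate_fixed (by simp [hW]) k
  obtain ⟨M, hM⟩ : ∃ M, ∀ n, W n ≤ M * n := by
    refine ⟨univ.sup fun c => (σ c).length, fun n => ?_⟩
    induction n with
    | zero => simp only [hW, List.length_flatMap, List.range_zero, List.map_nil, List.sum_nil, mul_zero, Std.le_refl]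
    | succ n ih =>
      have h1 := (hstep 1 n).1
      simp only [Function.iterate_one, S, List.flatMap_cons, List.flatMap_nil,
        List.append_nil] at h1
      have h2 := le_sup (f := fun c => (σ c).length) (mem_univ (u n))
      rw [h1, mul_add]
      omega
  obtain ⟨n1, hn0, hn1, hocc⟩ : ∃ n1, n0 ≤ n1 ∧ 1 ≤ n1 ∧ ∀ i, ∃ j < n1, u j = u i := by
    have : ∀ c : Fin m, ∃ j, ∀ i, u i = c → u j = c := by
      intro c
      by_cases hc : ∃ i, u i = c
      · obtain ⟨i, hi⟩ := hc
        exact ⟨i, fun _ _ => hi⟩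
      · exact ⟨0, fun i hi => absurd ⟨i, hi⟩ hc⟩
    choose f hf using this
    refine ⟨n0 + univ.sup f + 1, by omega, by omega, fun i => ⟨f (u i), ?_, hf _ i rfl⟩⟩
    have := le_sup (f := f) (mem_univ (u i))
    omega
  have hgrow : ∀ j n, n1 ≤ n → n + j ≤ W^[j] n ∧ δ ^ j * n ≤ W^[j] n := by
    intro j n hn
    induction j with
    | zero => simp
    | succ j ih =>
      rw [Function.iterate_succ_apply']
      have h1 : δ * (W^[j] n : ℕ) ≤ W (W^[j] n) := hdil _ (by omega)
      have h2 : (1 : ℝ) ≤ (W^[j] n : ℕ) := by exact_mod_cast (by omega : 1 ≤ W^[j] n)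
      have h3 : ((W^[j] n : ℕ) : ℝ) < W (W^[j] n) := by nlinarith only [hδ, h1, h2]
      have h4 : W^[j] n < W (W^[j] n) := by exact_mod_cast h3
      refine ⟨by omega, le_trans ?_ h1⟩
      rw [pow_succ', mul_assoc]
      exact mul_le_mul_of_nonneg_left ih.2 (by linarith only [hδ])
  refine ⟨M, fun c => ?_⟩
  filter_upwards [small_const c m] with Λ hΛ
  obtain ⟨j, hj⟩ := pow_unbounded_of_one_lt (Λ : ℝ) hδ
  refine ⟨m, W^[j] n1, hΛ, ?_⟩
  filter_upwards [eventually_ge_atTop n1] with N hN
  have hex : ∃ k, N < W^[k + 1] n1 := ⟨N, by have := (hgrow (N + 1) n1 le_rfl).1; omega⟩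
  set k := Nat.find hex with hk
  have hk1 : N < W^[k + 1] n1 := Nat.find_spec hex
  have hk2 : W^[k] n1 ≤ N := by
    rcases h0 : k with _ | k'
    · simpa using hN
    · have := Nat.find_min hex (m := k') (by omega)
      omega
  refine ⟨W^[k] n1, ?_, hk2, W^[k], hW0 k, fun i => hmono k (Nat.le_succ i), fun i => ?_, ?_, ?_⟩
  · rw [Function.iterate_succ_apply'] at hk1
    exact hk1.le.trans (hM _)
  · obtain ⟨i', hi', he⟩ := hocc i
    have h1 := (hstep k i').1
    have h2 := hmono k (show i' + 1 ≤ n1 from hi')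
    rw [(hstep k i).1, ← he]
    omega
  · rw [← Function.iterate_add_apply, add_comm, Function.iterate_add_apply]
    have h1 := (hgrow j (W^[k] n1) (by have := (hgrow k n1 le_rfl).1; omega)).2
    have h2 : (Λ : ℝ) * (W^[k] n1 : ℕ) ≤ δ ^ j * (W^[k] n1 : ℕ) :=
      mul_le_mul_of_nonneg_right hj.le (by positivity)
    exact_mod_cast h2.trans h1
  · have hsub : ((range (W^[j] n1)).image fun i => piece a (W^[k] i) (W^[k] (i + 1))) ⊆
        univ.image fun c => (S k c).map φ := by
      intro p hp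
      obtain ⟨i, -, rfl⟩ := mem_image.mp hp
      refine mem_image.mpr ⟨u i, mem_univ _, ?_⟩
      rw [piece, (hstep k i).1, Nat.add_sub_cancel_left]
      conv_lhs => rw [← (hstep k i).2]
      rw [List.map_map]
      exact List.map_congr_left fun t _ => (ha _).symm
    exact (card_le_card hsub).trans (card_image_le.trans (by simp only [card_univ, Fintype.card_fin, Std.le_refl]))

end Pool.Agent.MP_3fa95c_lc.H70

end

-- part MP_3fa95c_lc.H70.Lin
section

namespace Pool.Agent.MP_3fa95c_lc.H70

open Finset Filter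

def fac (a : ℕ → ℤ) (n i : ℕ) : List ℤ := (List.range n).map fun t => a (i + t)

def New (a : ℕ → ℤ) (n : ℕ) : Set ℕ := {i | ∀ j < i, fac a n j ≠ fac a n i}

theorem fac_eq_iff {a : ℕ → ℤ} {n i j : ℕ} :
    fac a n i = fac a n j ↔ ∀ t < n, a (i + t) = a (j + t) := by
  simp only [fac, List.map_inj_left, List.mem_range]

theorem fac_finite {a : ℕ → ℤ} (h : (Set.range a).Finite) (n : ℕ) :
    (Set.range (fac a n)).Finite := by
  have h1 : (Set.range fun f : Fin n → h.toFinset => List.ofFn fun t => (f t : ℤ)).Finite :=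
    Set.finite_range _
  refine h1.subset ?_
  rintro _ ⟨i, rfl⟩
  refine ⟨fun t => ⟨a (i + t), by simp⟩, ?_⟩
  refine List.ext_getElem (by simp [fac]) fun k h1 h2 => ?_
  simp [fac]

theorem new_injOn (a : ℕ → ℤ) (n : ℕ) : Set.InjOn (fac a n) (New a n) := by
  intro i hi j hj h
  rcases lt_trichotomy i j with h1 | h1 | h1
  · exact absurd h (hj i h1)
  · exact h1
  · exact absurd h.symm (hi j h1)

theorem new_finite {a : ℕ → ℤ} (h : (Set.range a).Finite) (n : ℕ) : (New a n).Finite :=
  Set.Finite.of_finite_image ((fac_finite h n).subset (Set.image_subset_range _ _))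
    (new_injOn a n)

theorem new_ncard {a : ℕ → ℤ} (h : (Set.range a).Finite) (n : ℕ) :
    (New a n).ncard ≤ (Set.range (fac a n)).ncard := by
  rw [← (new_injOn a n).ncard_image]
  exact Set.ncard_le_ncard (Set.image_subset_range _ _) (fac_finite h n)

theorem new_mono (a : ℕ → ℤ) (n : ℕ) : New a n ⊆ New a (n + 1) := fun _ hi j hj h =>
  hi j hj (fac_eq_iff.mpr fun t ht => fac_eq_iff.mp h t (by omega))

theorem new_pred {a : ℕ → ℤ} {n i : ℕ} (h : i + 1 ∈ New a n) : i ∈ New a (n + 1) := by
  intro j hj e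
  refine h (j + 1) (by omega) (fac_eq_iff.mpr fun t ht => ?_)
  have := fac_eq_iff.mp e (t + 1) (by omega)
  rwa [← add_assoc, ← add_assoc, add_right_comm, add_right_comm i] at this

theorem exists_new (a : ℕ → ℤ) (n x : ℕ) : ∃ i ∈ New a n, fac a n i = fac a n x := by
  classical
  have hex : ∃ i, fac a n i = fac a n x := ⟨x, rfl⟩
  exact ⟨Nat.find hex, fun j hj e => Nat.find_min hex hj (e.trans (Nat.find_spec hex)),
    Nat.find_spec hex⟩

theorem exists_flat (f : ℕ → ℕ) (n D : ℕ) (hn : 1 ≤ n) (h : f (2 * n) ≤ D * n) :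
    ∃ m, n ≤ m ∧ m < 2 * n ∧ f (m + 1) ≤ f m + D := by
  by_contra hc
  push Not at hc
  have : ∀ j ≤ n, (D + 1) * j ≤ f (n + j) := by
    intro j
    induction j with
    | zero => simp
    | succ j ih =>
      intro hj
      have h1 := ih (by omega)
      have h2 := hc (n + j) (by omega) (by omega)
      rw [mul_add, ← add_assoc]
      omega
  have h3 := this n le_rfl
  rw [← two_mul, add_mul] at h3
  omega

/-- few cells of the grid `l ℕ` lie inside first occurrences -/
theorem cells {a : ℕ → ℤ} (h : (Set.range a).Finite) {m D E l : ℕ} (hm : 1 ≤ m)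
    (h1 : (New a (m + 1)).ncard ≤ (New a m).ncard + D) (h2 : (New a m).ncard ≤ E) :
    ∃ X : Finset ℕ, X.card * l ≤ E + (D + 1) * m ∧
      ∀ i ∈ New a m, ∀ c, i ≤ c * l → c * l + l ≤ i + m → 1 ≤ l → c ∈ X := by
  classical
  set S := (new_finite h m).toFinset with hS
  set S' := (new_finite h (m + 1)).toFinset with hS'
  have hSc : S.card = (New a m).ncard := (Set.ncard_eq_toFinset_card _ _).symm
  have hSc' : S'.card = (New a (m + 1)).ncard := (Set.ncard_eq_toFinset_card _ _).symm
  have hsub : S ⊆ S' := fun x hx => by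
    simp only [hS, hS', Set.Finite.mem_toFinset] at hx ⊢
    exact new_mono a m hx
  set St : Finset ℕ := insert 0 ((S' \ S).image (· + 1)) with hSt
  have hStc : St.card ≤ D + 1 := by
    refine (card_insert_le _ _).trans (Nat.succ_le_succ (card_image_le.trans ?_))
    rw [card_sdiff_of_subset hsub]
    omega
  set Src : Finset ℕ := S.image (· + (m - 1)) ∪ St.biUnion fun i => Ico i (i + m) with hSrc
  have hSrcc : Src.card ≤ E + (D + 1) * m := by
    refine (card_union_le _ _).trans (Nat.add_le_add (card_image_le.trans (by omega))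
      (card_biUnion_le.trans ?_))
    simp only [Nat.card_Ico, Nat.add_sub_cancel_left, sum_const, smul_eq_mul]
    exact Nat.mul_le_mul_right _ hStc
  have hmem : ∀ i, i ∈ New a m → ∀ x, i ≤ x → x < i + m → x ∈ Src := by
    intro i
    induction i with
    | zero =>
      intro _ x _ hx
      exact mem_union_right _ (mem_biUnion.mpr ⟨0, mem_insert_self _ _, mem_Ico.mpr ⟨by omega, hx⟩⟩)
    | succ i ih =>
      intro hi x hx hx'
      by_cases he : x = i + 1 + (m - 1)
      · exact mem_union_left _ (mem_image.mpr ⟨i + 1, by simpa [hS] using hi, he.symm⟩)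
      by_cases hi' : i ∈ New a m
      · exact ih hi' x (by omega) (by omega)
      · refine mem_union_right _ (mem_biUnion.mpr ⟨i + 1, mem_insert_of_mem (mem_image.mpr
          ⟨i, mem_sdiff.mpr ⟨?_, ?_⟩, rfl⟩), mem_Ico.mpr ⟨hx, hx'⟩⟩)
        · simpa [hS'] using new_pred hi
        · simpa [hS] using hi'
  rcases Nat.eq_zero_or_pos l with rfl | hl
  · exact ⟨∅, by simp, fun _ _ _ _ _ h => by omega⟩
  set X : Finset ℕ := (Src.image (· / l)).filter fun c => ∀ t < l, c * l + t ∈ Src with hX
  refine ⟨X, le_trans ?_ hSrcc, fun i hi c h3 h4 _ => ?_⟩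
  · have : (X ×ˢ range l).card ≤ Src.card := by
      refine card_le_card_of_injOn (fun p => p.1 * l + p.2) (fun p hp => ?_) ?_
      · obtain ⟨hp1, hp2⟩ := mem_product.mp hp
        exact (mem_filter.mp hp1).2 _ (mem_range.mp hp2)
      · rintro ⟨c, t⟩ hp ⟨c', t'⟩ hp' e
        have ht : t < l := mem_range.mp (mem_product.mp hp).2
        have ht' : t' < l := mem_range.mp (mem_product.mp hp').2
        simp only at e
        have e1 := congrArg (· / l) e
        have e2 := congrArg (· % l) e
        simp only [mul_comm _ l, Nat.mul_add_div hl, Nat.div_eq_of_lt ht, Nat.div_eq_of_lt ht',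
          Nat.mul_add_mod, Nat.mod_eq_of_lt ht, Nat.mod_eq_of_lt ht'] at e1 e2
        simp only [Prod.mk.injEq]
        omega
    simpa using this
  · refine mem_filter.mpr ⟨mem_image.mpr ⟨c * l, hmem i hi _ h3 (by omega), by simp [hl]⟩,
      fun t ht => hmem i hi _ (by omega) (by omega)⟩

/-- The block decomposition at one scale. -/
theorem lin_blocks {a : ℕ → ℤ} (h : (Set.range a).Finite) {C M l : ℕ} (hM : 1 ≤ M) (hl : 1 ≤ l)
    (hC : (Set.range (fac a (2 * (M * l)))).ncard ≤ C * (2 * (M * l))) :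
    ∃ s : ℕ → ℕ, s 0 = 0 ∧ (∀ i, s i ≤ s (i + 1)) ∧ (∀ i, s (i + 1) ≤ s i + l) ∧
      M * M * l ≤ s (M * (2 * M + 2)) ∧
      ((range (M * (2 * M + 2))).image fun i => piece a (s i) (s (i + 1))).card ≤
        (6 * C + 5) * M := by
  classical
  have hn : 1 ≤ M * l := Nat.mul_pos hM hl
  have hE := (new_ncard h (2 * (M * l))).trans hC
  obtain ⟨m, hm1, hm2, hm3⟩ := exists_flat (fun n => (New a n).ncard) (M * l) (2 * C) hn
    (by simpa only [mul_left_comm, mul_assoc] using hE)
  have hmono : Monotone fun n => (New a n).ncard := monotone_nat_of_le_succ fun n =>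
    Set.ncard_le_ncard (new_mono a n) (new_finite h _)
  obtain ⟨X, hX, hXm⟩ := cells h (l := l) (by omega : 1 ≤ m) hm3 ((hmono hm2.le).trans hE)
  have hXc : X.card ≤ (6 * C + 2) * M := by
    refine Nat.le_of_mul_le_mul_right (hX.trans ?_) hl
    nlinarith only [hm2]
  choose p hp hpe using fun k => exists_new a m (k * m)
  set J := 2 * M + 2 with hJ
  have hJ0 : 0 < J := by omega
  let o : ℕ → ℕ → ℕ := fun k j => min m ((p k / l + j) * l - p k)
  have hd : ∀ k, p k / l * l ≤ p k ∧ p k < p k / l * l + l := fun k =>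
    ⟨Nat.div_mul_le_self _ _, by
      have := Nat.lt_div_mul_add (a := p k) hl
      omega⟩
  have ho0 : ∀ k, o k 0 = 0 := fun k => by
    have := hd k
    simp only [o, add_zero]
    omega
  have hoJ : ∀ k, o k J = m := fun k => by
    have := hd k
    simp only [o, hJ, add_mul, mul_assoc]
    omega
  have hos : ∀ k j, o k j ≤ o k (j + 1) ∧ o k (j + 1) ≤ o k j + l ∧ o k (j + 1) ≤ m := by
    intro k j
    simp only [o, ← add_assoc, add_one_mul]
    omega
  let s : ℕ → ℕ := fun i => i / J * m + o (i / J) (i % J)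
  have hs : ∀ i, s (i + 1) = i / J * m + o (i / J) (i % J + 1) := by
    intro i
    have h1 := Nat.mod_lt i hJ0
    have h2 := Nat.div_add_mod i J
    by_cases h3 : i % J + 1 < J
    · have e1 : (i + 1) / J = i / J := by
        rw [← h2, add_assoc, Nat.mul_add_div hJ0, Nat.mul_add_div hJ0, Nat.div_eq_of_lt h3,
          Nat.div_eq_of_lt h1]
      have e2 : (i + 1) % J = i % J + 1 := by
        conv_lhs => rw [← h2, add_assoc, Nat.mul_add_mod, Nat.mod_eq_of_lt h3]
      simp only [s, e1, e2]
    · have e0 : i + 1 = J * (i / J + 1) := by rw [mul_add]; omega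
      have e1 : (i + 1) / J = i / J + 1 := by rw [e0, Nat.mul_div_cancel_left _ hJ0]
      have e2 : (i + 1) % J = 0 := by rw [e0, Nat.mul_mod_right]
      have e3 : i % J + 1 = J := by omega
      simp only [s, e1, e2, e3, ho0, hoJ, add_one_mul, add_zero]
  refine ⟨s, by simp [s, ho0], fun i => ?_, fun i => ?_, ?_, ?_⟩
  · rw [hs]
    exact Nat.add_le_add_left (hos _ _).1 _
  · rw [hs]
    have := (hos (i / J) (i % J)).2.1
    simp only [s]
    omega
  · simp only [s, Nat.mul_div_cancel _ hJ0, Nat.mul_mod_left, ho0, add_zero, mul_assoc]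
    exact Nat.mul_le_mul_left _ hm1
  · have hsub : ((range (M * J)).image fun i => piece a (s i) (s (i + 1))) ⊆
        insert [] ((((range M).image fun k => piece a (p k) (p k + o k 1)) ∪
          (range M).image fun k => piece a ((p k + m - 1) / l * l) (p k + m)) ∪
          X.image fun c => piece a (c * l) (c * l + l)) := by
      intro w hw
      obtain ⟨i, hi, rfl⟩ := mem_image.mp hw
      have hk : i / J < M := (Nat.div_lt_iff_lt_mul hJ0).mpr (mem_range.mp hi)
      set k := i / J
      set j := i % J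
      have h3 := hos k j
      have hcopy : piece a (s i) (s (i + 1)) = piece a (p k + o k j) (p k + o k (j + 1)) := by
        rw [hs]
        simp only [s, piece, Nat.add_sub_add_left]
        refine List.map_congr_left fun t ht => ?_
        have ht' : t < o k (j + 1) - o k j := List.mem_range.mp ht
        rw [add_assoc, add_assoc]
        exact (fac_eq_iff.mp (hpe k) (o k j + t) (by omega)).symm
      rw [hcopy]
      rcases Nat.eq_zero_or_pos j with hj | hj
      · rw [hj, ho0]
        exact mem_insert_of_mem (mem_union_left _ (mem_union_left _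
          (mem_image.mpr ⟨k, mem_range.mpr hk, rfl⟩)))
      by_cases h4 : o k j = m
      · have : o k (j + 1) = m := by omega
        rw [h4, this]
        simp only [piece, add_tsub_cancel_left, union_assoc, tsub_self, List.range_zero, List.map_nil, mem_insert, mem_union, mem_image, mem_range, List.map_eq_nil_iff, List.range_eq_nil, exists_and_right, true_or]
      have h5 := hd k
      have h6 : p k / l * l + l ≤ (p k / l + j) * l := by
        rw [← add_one_mul]
        exact Nat.mul_le_mul_right _ (by omega)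
      have h7 : p k + o k j = (p k / l + j) * l := by
        simp only [o] at h4 ⊢
        omega
      by_cases h8 : o k (j + 1) = m
      · refine mem_insert_of_mem (mem_union_left _ (mem_union_right _
          (mem_image.mpr ⟨k, mem_range.mpr hk, ?_⟩)))
        have : (p k + m - 1) / l = p k / l + j := by
          refine Nat.div_eq_of_lt_le (by omega) ?_
          rw [add_one_mul]
          omega
        rw [this, h7, h8]
      · have h9 : p k + o k (j + 1) = (p k / l + j) * l + l := by
          simp only [o, ← add_assoc, add_one_mul] at h8 ⊢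
          omega
        refine mem_insert_of_mem (mem_union_right _ (mem_image.mpr ⟨p k / l + j,
          hXm _ (hp k) _ (by omega) (by omega) hl, ?_⟩))
        rw [h7, h9]
    refine (card_le_card hsub).trans ((card_insert_le _ _).trans ?_)
    have e1 := card_union_le (((range M).image fun k => piece a (p k) (p k + o k 1)) ∪
          (range M).image fun k => piece a ((p k + m - 1) / l * l) (p k + m))
          (X.image fun c => piece a (c * l) (c * l + l))
    have e2 := card_union_le ((range M).image fun k => piece a (p k) (p k + o k 1))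
          ((range M).image fun k => piece a ((p k + m - 1) / l * l) (p k + m))
    have e3 := card_image_le (s := range M) (f := fun k => piece a (p k) (p k + o k 1))
    have e4 := card_image_le (s := range M)
      (f := fun k => piece a ((p k + m - 1) / l * l) (p k + m))
    have e5 := card_image_le (s := X) (f := fun c => piece a (c * l) (c * l + l))
    rw [card_range] at e3 e4
    linarith only [hM, hXc, e1, e2, e3, e4, e5]

theorem LinGen.bdd {a : ℕ → ℤ} (h : LinGen a) : ∃ M : ℤ, ∀ n, |a n| ≤ M := by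
  obtain ⟨M, hM⟩ := (h.1.image fun x => |x|).bddAbove
  exact ⟨M, fun n => hM ⟨_, ⟨n, rfl⟩, rfl⟩⟩

theorem LinGen.blocky {a : ℕ → ℤ} (h : LinGen a) : Blocky a := by
  obtain ⟨hf, C, hC⟩ := h
  refine ⟨1, fun c => ?_⟩
  obtain ⟨m0, hm0⟩ := eventually_atTop.mp (small_const (8 * c) (6 * C + 5))
  filter_upwards [eventually_ge_atTop ((m0 + 1) * (m0 + 1))] with Λ hΛ
  set m := Nat.sqrt Λ with hm
  have h1 : m0 + 1 ≤ m := Nat.le_sqrt.mpr hΛ
  have h2 : m * m ≤ Λ := Nat.sqrt_le Λ
  have h3 : Λ < (m + 1) * (m + 1) := Nat.lt_succ_sqrt Λ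
  refine ⟨(6 * C + 5) * (m + 1), (m + 1) * (2 * (m + 1) + 2), ?_, ?_⟩
  · have h4 := hm0 (m + 1) (by omega)
    have h5 : Nat.log 2 Λ + 1 ≤ 2 * (Nat.log 2 (m + 1) + 1) := by
      have e1 : m + 1 < 2 ^ (Nat.log 2 (m + 1) + 1) := Nat.lt_pow_succ_log_self (by norm_num) _
      have e2 : Λ < 2 ^ (2 * (Nat.log 2 (m + 1) + 1)) := by
        rw [two_mul, pow_add]
        exact h3.trans (Nat.mul_lt_mul'' e1 e1)
      exact Nat.log_lt_of_lt_pow (by nlinarith only [h1, h2]) e2
    have h6 : (6 * C + 5) * (m + 1) + 1 ≤ (6 * C + 5 + 1) * (m + 1) := by linarith only []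
    have h7 : 4 * (c * ((6 * C + 5) * (m + 1) + 1) * (Nat.log 2 Λ + 1)) ≤ (m + 1) * (m + 1) := by
      calc 4 * (c * ((6 * C + 5) * (m + 1) + 1) * (Nat.log 2 Λ + 1))
          ≤ 4 * (c * ((6 * C + 5 + 1) * (m + 1)) * (2 * (Nat.log 2 (m + 1) + 1))) := by gcongr
        _ = (m + 1) * (8 * c * (6 * C + 5 + 1) * (Nat.log 2 (m + 1) + 1)) := by ring
        _ ≤ _ := Nat.mul_le_mul_left _ h4
    nlinarith only [h2, h7]
  · filter_upwards [eventually_ge_atTop 1] with N hN
    obtain ⟨s, a1, a2, a3, a4, a5⟩ := lin_blocks hf (C := C) (M := m + 1) (l := N) (by omega) hN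
      (hC _ (by nlinarith only [hN]))
    exact ⟨N, by omega, le_rfl, s, a1, a2, a3, le_trans (Nat.mul_le_mul_right _ h3.le) a4, a5⟩

end Pool.Agent.MP_3fa95c_lc.H70

end

-- part MP_3fa95c_lc.H70.Mem
section

namespace Pool.Agent.MP_3fa95c_lc.H70

open Filter Finset

theorem MemGen.bdd {a : ℕ → ℤ} (h : MemGen a) : ∃ M : ℤ, ∀ n, |a n| ≤ M := by
  obtain ⟨M, hM⟩ := (h.1.image fun x => |x|).bddAbove
  exact ⟨M, fun n => hM ⟨_, ⟨n, rfl⟩, rfl⟩⟩

theorem digits_cat {k : ℕ} (hk : 2 ≤ k) (L n t : ℕ) (hn : 0 < n) (ht : t < k ^ L) :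
    (Nat.digits k (n * k ^ L + t)).reverse = (Nat.digits k n).reverse ++
      (Nat.digits k t ++ List.replicate (L - (Nat.digits k t).length) 0).reverse := by
  have h1 : (Nat.digits k t).length ≤ L := (Nat.digits_length_le_iff (by omega) t).mpr ht
  have h2 := Nat.digits_append_zeroes_append_digits (b := k) (k := L - (Nat.digits k t).length)
    (m := n) (n := t) (by omega) hn
  rw [Nat.add_sub_cancel' h1, add_comm, mul_comm] at h2
  rw [← List.reverse_append, h2]

theorem log_two_le {Λ : ℕ} (h : 2 ≤ Λ) : ((Nat.log 2 Λ + 1 : ℕ) : ℝ) ≤ 3 * Real.log Λ := by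
  have h1 : ((2 : ℝ)) ^ Nat.log 2 Λ ≤ Λ := by exact_mod_cast Nat.pow_log_le_self 2 (by omega)
  have h2 := Real.log_le_log (by positivity) h1
  rw [Real.log_pow] at h2
  have h3 : Real.log 2 ≤ Real.log Λ := Real.log_le_log (by norm_num) (by exact_mod_cast h)
  have h4 := Real.log_two_gt_d9
  have h5 : (0 : ℝ) ≤ Nat.log 2 Λ := by positivity
  push_cast
  nlinarith only [h2, h3, h4]

theorem MemGen.blocky {a : ℕ → ℤ} (h : MemGen a) : Blocky a := by
  classical
  obtain ⟨-, k, Q, δ, q0, τ, hk, ha, h⟩ := h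
  set st : ℕ → Q := fun n => (Nat.digits k n).reverse.foldl δ q0 with hst
  refine ⟨k, fun c => ?_⟩
  filter_upwards [h.eventually (gt_mem_nhds (show (0 : ℝ) < 1 / (6 * c + 1) by positivity)),
    small_const (2 * c) 1, eventually_ge_atTop 2] with Λ h1 h2 h3
  have e : (st '' Set.Iio Λ).ncard = ((range Λ).image st).card := by
    rw [← Set.ncard_coe_finset, coe_image, coe_range]
  rw [e] at h1
  set T := (range Λ).image st with hT
  refine ⟨T.card + 1, Λ, ?_, ?_⟩
  · have h4 := log_two_le h3
    have h0 : (0 : ℝ) < Λ := by positivity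
    rw [div_lt_div_iff₀ h0 (by positivity), one_mul] at h1
    have h5 : 0 ≤ (T.card : ℝ) * Real.log Λ := by positivity
    have h6 : ((2 * c * T.card * (Nat.log 2 Λ + 1) : ℕ) : ℝ) ≤ Λ := by
      rw [Nat.cast_mul]
      refine (mul_le_mul_of_nonneg_left h4 (by positivity)).trans ?_
      push_cast
      linarith only [h1, h5]
    have h7 : 2 * c * T.card * (Nat.log 2 Λ + 1) ≤ Λ := by exact_mod_cast h6
    linarith only [h2, h7]
  · filter_upwards [eventually_ge_atTop 1] with N hN
    refine ⟨k ^ Nat.log k N, ?_, Nat.pow_log_le_self _ (by omega), fun n => n * k ^ Nat.log k N,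
      by simp, fun n => Nat.mul_le_mul_right _ (Nat.le_succ n), fun n => (add_one_mul _ _).le,
      le_rfl, ?_⟩
    · rw [← pow_succ']
      exact (Nat.lt_pow_succ_log_self (by omega) N).le
    set L := Nat.log k N
    have hsub : ((range Λ).image fun n => piece a (n * k ^ L) ((n + 1) * k ^ L)) ⊆
        insert (piece a (0 * k ^ L) ((0 + 1) * k ^ L))
          (T.image fun q => (List.range (k ^ L)).map fun u => τ
            ((Nat.digits k u ++ List.replicate (L - (Nat.digits k u).length) 0).reverse.foldl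
              δ q)) := by
      intro p hp
      obtain ⟨n, hn, rfl⟩ := mem_image.mp hp
      rcases Nat.eq_zero_or_pos n with rfl | hn0
      · exact mem_insert_self _ _
      refine mem_insert_of_mem (mem_image.mpr ⟨st n, mem_image.mpr ⟨n, hn, rfl⟩, ?_⟩)
      rw [piece, add_mul, one_mul, Nat.add_sub_cancel_left]
      refine List.map_congr_left fun u hu => ?_
      rw [ha]
      simp only [hst]
      rw [digits_cat hk L n u hn0 (List.mem_range.mp hu), List.foldl_append]
    exact (card_le_card hsub).trans ((card_insert_le _ _).trans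
      (Nat.succ_le_succ card_image_le))

end Pool.Agent.MP_3fa95c_lc.H70

end

-- part MP_3fa95c_lc.H70.Final
section

namespace Pool.Agent.MP_3fa95c_lc.H70

open H25E

theorem adjoin_fin {Ξ : Set ℝ} {y : ℝ} (hy : y ∈ Algebra.adjoin ℚ Ξ) :
    ∃ T : Finset ℝ, ↑T ⊆ Ξ ∧ y ∈ Algebra.adjoin ℚ (T : Set ℝ) := by
  classical
  induction hy using Algebra.adjoin_induction with
  | mem x hx => exact ⟨{x}, by simpa using hx, Algebra.subset_adjoin (by simp)⟩
  | algebraMap x => exact ⟨∅, by simp, Subalgebra.algebraMap_mem _ x⟩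
  | add x y _ _ hx hy =>
    obtain ⟨T, h1, h2⟩ := hx
    obtain ⟨T', h1', h2'⟩ := hy
    exact ⟨T ∪ T', by simp [h1, h1'], add_mem (Algebra.adjoin_mono (by simp) h2)
      (Algebra.adjoin_mono (by simp) h2')⟩
  | mul x y _ _ hx hy =>
    obtain ⟨T, h1, h2⟩ := hx
    obtain ⟨T', h1', h2'⟩ := hy
    exact ⟨T ∪ T', by simp [h1, h1'], mul_mem (Algebra.adjoin_mono (by simp) h2)
      (Algebra.adjoin_mono (by simp) h2')⟩

theorem transc_of_nice {S : Sc} {Ξ : Set ℝ} (h : ∀ ξ ∈ Ξ, Nice S {ξ}) :
    Transcendental (IntermediateField.adjoin ℚ Ξ) (Real.exp 1) := by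
  classical
  have h1 : Transcendental (Algebra.adjoin ℚ Ξ) (Real.exp (-1)) := by
    rintro ⟨p, hp0, hp⟩
    choose T hT1 hT2 using fun u => adjoin_fin (p.coeff u).2
    let T' : Finset ℝ := p.support.biUnion T
    have hT' : ↑T' ⊆ Ξ := by
      intro x hx
      obtain ⟨u, -, hu⟩ := Finset.mem_biUnion.1 hx
      exact hT1 u hu
    refine (nice_finset T' fun ξ hξ => h ξ (hT' hξ)).transc ?_
    have hc : ∀ u ∈ p.support, (p.coeff u : ℝ) ∈ Algebra.adjoin ℚ (T' : Set ℝ) := fun u hu =>
      Algebra.adjoin_mono (Finset.coe_subset.2 (Finset.subset_biUnion_of_mem T hu)) (hT2 u)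
    let p' : Polynomial (Algebra.adjoin ℚ (T' : Set ℝ)) :=
      ∑ u ∈ p.support.attach, Polynomial.monomial u.1 ⟨_, hc u.1 u.2⟩
    have e : p'.map (algebraMap _ ℝ) = p.map (algebraMap _ ℝ) := by
      conv_rhs => rw [p.as_sum_support, ← Finset.sum_attach]
      simp only [p', Polynomial.map_sum, Polynomial.map_monomial]
      rfl
    refine ⟨p', fun h0 => hp0 ?_, ?_⟩
    · rw [h0, Polynomial.map_zero] at e
      exact (Polynomial.map_eq_zero_iff (FaithfulSMul.algebraMap_injective _ ℝ)).1 e.symm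
    · rw [Polynomial.aeval_def, ← Polynomial.eval_map, e, Polynomial.eval_map,
        ← Polynomial.aeval_def, hp]
  intro h2
  refine IntermediateField.transcendental_adjoin_iff.2 h1 ?_
  rw [Real.exp_neg]
  exact h2.inv

theorem main (Ξ : Set ℝ) (h : ∀ ξ ∈ Ξ, ∃ (b : ℕ) (a : ℕ → ℤ), 2 ≤ b ∧
    ((∃ (A : DPDA) (k : ℕ), 2 ≤ k ∧ ∀ n, a n = A.digit k n) ∨ TagGen a ∨ LinGen a ∨ MemGen a) ∧
    ξ = ∑' n, (a n : ℝ) / b ^ n) :
    Transcendental (IntermediateField.adjoin ℚ Ξ) (Real.exp 1) := by
  refine transc_of_nice (S := S0) fun ξ hξ => ?_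
  obtain ⟨b, a, hb, ha, rfl⟩ := h ξ hξ
  rcases ha with ⟨A, k, hk, ha⟩ | ha | ha | ha
  · obtain rfl : a = A.digit k := funext ha
    obtain ⟨M, hM⟩ := A.digit_bdd k
    exact (A.blocky hk).nice hb hM
  · obtain ⟨M, hM⟩ := ha.bdd
    exact ha.blocky.nice hb hM
  · obtain ⟨M, hM⟩ := ha.bdd
    exact ha.blocky.nice hb hM
  · obtain ⟨M, hM⟩ := ha.bdd
    exact ha.blocky.nice hb hM

end Pool.Agent.MP_3fa95c_lc.H70

end
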